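import Pool.Agent.TH43.LQ.Par0
import Pool.Agent.TH836.Leh.FamP

/-!
# Solutions of `φ(n) ∣ n + 1` and their prime factors
-/

set_option autoImplicit false

namespace Pool.Agent.TH43.PL

open Finset Pool.Agent.H95R2.Leh Pool.Agent.TH836.Leh

/-- the cofactor of a prime factor of a solution -/
theorem lehP_pair {n : ℕ} (h : LehP n) {p : ℕ} (hp : p.Prime) (hpn : p ∣ n) :
    ∃ s : ℕ, 1 ≤ s ∧ n + p = p * (s * (p - 1)) ∧
      ∀ f : ℕ, f ∣ n / p → (f : ℤ) ∣ (s : ℤ) * ((p : ℤ) - 1) - 1 ∧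
        (f.totient : ℤ) ∣ (s : ℤ) * p - 1 := by
  obtain ⟨hsq, hodd, hco⟩ := lehP_basic h
  obtain ⟨k, hk2, hk, -⟩ := lehP_k h
  obtain ⟨m, rfl⟩ := hpn
  have hp2 := hp.two_le
  have hcop : Nat.Coprime p m := Nat.coprime_of_squarefree_mul hsq
  have hphi : Nat.totient (p * m) = (p - 1) * Nat.totient m := by
    rw [Nat.totient_mul hcop, Nat.totient_prime hp]
  obtain ⟨r, hr⟩ : ∃ r, p = r + 2 := ⟨p - 2, by omega⟩
  have hp1 : p - 1 = r + 1 := by omega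
  -- k φ(m) (p - 1) = p m + 1
  have hkey : (k * Nat.totient m) * (p - 1) = p * m + 1 := by
    rw [hphi] at hk
    rw [hk]
    ring
  set a := k * Nat.totient m with ha
  have ham : m ≤ a := by
    by_contra hlt
    push Not at hlt
    have h1 : (a + 1) * (p - 1) ≤ m * (p - 1) := Nat.mul_le_mul_right _ hlt
    rw [hp1] at h1 hkey
    rw [hr] at hkey
    nlinarith
  obtain ⟨s, hs⟩ : ∃ s, a = m + s := ⟨a - m, by omega⟩
  have hms : m + 1 = s * (p - 1) := by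
    rw [hs] at hkey
    rw [hp1] at hkey ⊢
    rw [hr] at hkey
    nlinarith
  have hs1 : 1 ≤ s := by
    rcases Nat.eq_zero_or_pos s with h0 | h0
    · rw [h0, zero_mul] at hms
      omega
    · exact h0
  have hpz : ((p - 1 : ℕ) : ℤ) = (p : ℤ) - 1 := by omega
  have hmz : (s : ℤ) * ((p : ℤ) - 1) - 1 = m := by
    have h1 : ((m + 1 : ℕ) : ℤ) = ((s * (p - 1) : ℕ) : ℤ) := by rw [hms]
    push_cast at h1
    rw [hpz] at h1
    linarith
  refine ⟨s, hs1, by rw [← hms]; ring, ?_⟩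
  intro f hf
  rw [Nat.mul_div_cancel_left m hp.pos] at hf
  refine ⟨by rw [hmz]; exact_mod_cast hf, ?_⟩
  have h1 : f.totient ∣ m.totient := Nat.totient_dvd_of_dvd hf
  have h2 : (s : ℤ) * p - 1 = a := by
    have h3 : (a : ℤ) = m + s := by exact_mod_cast hs
    rw [h3, ← hmz]
    ring
  rw [h2, ha]
  exact_mod_cast Dvd.dvd.mul_left h1 k

theorem exists_cP (f : ℕ) : ∃ c : ZMod (f * f.totient), Nat.Coprime f f.totient →
    ∀ s p : ℤ, (f : ℤ) ∣ s * (p - 1) - 1 → (f.totient : ℤ) ∣ s * p - 1 →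
      ((s : ℤ) : ZMod (f * f.totient)) * (c - ((-p : ℤ) : ZMod (f * f.totient))) = 1 := by
  by_cases hco : Nat.Coprime f f.totient
  · obtain ⟨u, v, huv⟩ := Nat.isCoprime_iff_coprime.mpr hco
    refine ⟨((-(v * f.totient) : ℤ) : ZMod (f * f.totient)), fun _ s p h1 h2 => ?_⟩
    have h3 : ((f * f.totient : ℕ) : ℤ) ∣ s * (-(v * f.totient) - (-p)) - 1 := by
      push_cast
      apply (Nat.isCoprime_iff_coprime.mpr hco).mul_dvd
      · have e1 : s * (-(v * f.totient) - (-p)) - 1 = (s * (p - 1) - 1) + s * u * f := by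
          have : v * (f.totient : ℤ) = 1 - u * f := by linarith
          rw [this]; ring
        rw [e1]
        exact dvd_add h1 (Dvd.intro_left _ rfl)
      · have e1 : s * (-(v * f.totient) - (-p)) - 1 = (s * p - 1) - s * v * f.totient := by ring
        rw [e1]
        exact dvd_sub h2 (Dvd.intro_left _ rfl)
    have h4 := (ZMod.intCast_zmod_eq_zero_iff_dvd _ _).2 h3
    push_cast at h4 ⊢
    exact sub_eq_zero.1 h4
  · exact ⟨0, fun h => absurd h hco⟩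

open Classical in
/-- the points of the box -/
noncomputable def PP (q : ℕ) (c : ZMod q) (Y S : ℕ) : Finset (ℕ × ℕ) :=
  (range S ×ˢ range Y).filter (fun ij : ℕ × ℕ =>
    ((((1 : ℤ) + ij.1 : ℤ)) : ZMod q) * (c - ((((-(2 * Y : ℕ) : ℤ) + ij.2 : ℤ)) : ZMod q)) = 1)

theorem cover_count (x Y : ℕ) (hY : 1 ≤ Y) (A E : Finset ℕ)
    (hA : ∀ n ∈ A, n ≤ x ∧ LehP n ∧ ∃ p : ℕ, p.Prime ∧ p ∣ n ∧ Y < p ∧ p ≤ 2 * Y ∧
      ∃ f ∈ E, f ∣ n / p)
    (Bd : ℝ) (hBd : ∀ f ∈ E, ∀ c : ZMod (f * f.totient),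
      (Pool.Agent.TH43.LK.NN (f * f.totient) c 1 (-(2 * Y : ℕ) : ℤ) (x / Y ^ 2 + 1) Y : ℝ) ≤ Bd) :
    (A.card : ℝ) ≤ E.card * Bd := by
  classical
  choose cf hcf using exists_cP
  have hsub : A ⊆ E.biUnion (fun f =>
      (PP (f * f.totient) (cf f) Y (x / Y ^ 2 + 1)).image
      (fun ij => (2 * Y - ij.2) * ((1 + ij.1) * (2 * Y - ij.2 - 1)) - (2 * Y - ij.2))) := by
    intro n hn
    obtain ⟨hnx, hL, p, hp, hpn, hYp, hp2, f, hfE, hf1⟩ := hA n hn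
    obtain ⟨s, hs1, hns, hdiv⟩ := lehP_pair hL hp hpn
    obtain ⟨d1, d2⟩ := hdiv f hf1
    have hfn : f ∣ n := hf1.trans (Nat.div_dvd_of_dvd hpn)
    have hco : Nat.Coprime f f.totient := by
      obtain ⟨-, -, hco⟩ := lehP_basic hL
      exact (hco.coprime_dvd_left hfn).coprime_dvd_right (Nat.totient_dvd_of_dvd hfn)
    rw [mem_biUnion]
    refine ⟨f, hfE, ?_⟩
    rw [mem_image]
    have hsS : s - 1 ≤ x / Y ^ 2 := by
      rw [Nat.le_div_iff_mul_le (by positivity)]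
      obtain ⟨s', rfl⟩ : ∃ s', s = s' + 1 := ⟨s - 1, by omega⟩
      obtain ⟨r, rfl⟩ : ∃ r, p = r + 2 := ⟨p - 2, by have := hp.two_le; omega⟩
      rw [Nat.add_sub_cancel]
      have e1 : r + 2 - 1 = r + 1 := by omega
      rw [e1] at hns
      have h1 : Y ≤ r + 1 := by omega
      have h2 : s' * Y ^ 2 ≤ s' * (r + 1) ^ 2 := Nat.mul_le_mul_left _ (Nat.pow_le_pow_left h1 2)
      nlinarith
    refine ⟨(s - 1, 2 * Y - p), ?_, ?_⟩
    · unfold PP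
      rw [mem_filter, mem_product, mem_range, mem_range]
      refine ⟨⟨by simp only; omega, by simp only; omega⟩, ?_⟩
      have h1 := hcf f hco (s : ℤ) (p : ℤ) d1 d2
      have e1 : ((1 : ℤ) + ((s - 1 : ℕ) : ℤ)) = (s : ℤ) := by
        push_cast [Nat.cast_sub hs1]
        ring
      have e2 : ((-(2 * Y : ℕ) : ℤ) + ((2 * Y - p : ℕ) : ℤ)) = (-(p : ℤ)) := by
        omega
      simp only
      rw [e1, e2]
      exact h1
    · simp only
      have e1 : 2 * Y - (2 * Y - p) = p := by omega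
      have e2 : 1 + (s - 1) = s := by omega
      rw [e1, e2, ← hns]
      omega
  have h1 : (A.card : ℝ) ≤ ∑ f ∈ E,
      (((PP (f * f.totient) (cf f) Y (x / Y ^ 2 + 1)).image
      (fun ij : ℕ × ℕ => (2 * Y - ij.2) * ((1 + ij.1) * (2 * Y - ij.2 - 1)) -
        (2 * Y - ij.2))).card : ℝ) := by
    exact_mod_cast (card_le_card hsub).trans card_biUnion_le
  refine h1.trans ?_
  have h2 : ∀ f ∈ E, (((PP (f * f.totient) (cf f) Y (x / Y ^ 2 + 1)).image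
      (fun ij : ℕ × ℕ => (2 * Y - ij.2) * ((1 + ij.1) * (2 * Y - ij.2 - 1)) -
        (2 * Y - ij.2))).card : ℝ) ≤ Bd := by
    intro f hf
    refine le_trans ?_ (hBd f hf (cf f))
    exact_mod_cast card_image_le
  refine (sum_le_sum h2).trans ?_
  rw [sum_const, nsmul_eq_mul]

theorem triv_bd : ∃ A : ℝ, 1 ≤ A ∧ ∀ (x Y f : ℕ) (z : ℝ), 1 ≤ Y → Y ^ 2 ≤ x → 1 ≤ f → f ≤ x →
    1 ≤ z → z / (16 * (1 + 2 * Real.log x)) < (f : ℝ) →
    (((x / Y ^ 2 + 1 : ℕ) : ℝ) / ((f * f.totient : ℕ) : ℝ) ≤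
      A * (1 + Real.log x) ^ 3 * ((x : ℝ) / ((Y : ℝ) ^ 2 * z ^ 2))) ∧
    ∀ c : ZMod (f * f.totient),
      (Pool.Agent.TH43.LK.NN (f * f.totient) c 1 (-(2 * Y : ℕ) : ℤ) (x / Y ^ 2 + 1) Y : ℝ) ≤
      Y * (A * (1 + Real.log x) ^ 3 * ((x : ℝ) / ((Y : ℝ) ^ 2 * z ^ 2)) + 1) := by
  obtain ⟨A, hA, hmod⟩ := Pool.Agent.TH43.LK.modulus_lower
  refine ⟨2 * A, by linarith, ?_⟩
  intro x Y f z hY hYx hf hfx hz hlt
  have hphi : 0 < f.totient := Nat.totient_pos.2 hf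
  have hqpos : 0 < f * f.totient := Nat.mul_pos hf hphi
  have hqr : (0 : ℝ) < ((f * f.totient : ℕ) : ℝ) := by exact_mod_cast hqpos
  have hY0 : (0 : ℝ) < Y := by exact_mod_cast hY
  have h2 := hmod x f z hf hfx hz hlt
  have hz2 : 0 < z ^ 2 := by positivity
  have hYx' : (Y : ℝ) ^ 2 ≤ (x : ℝ) := by exact_mod_cast hYx
  have key : (((x / Y ^ 2 + 1 : ℕ) : ℝ) / ((f * f.totient : ℕ) : ℝ) ≤
      2 * A * (1 + Real.log x) ^ 3 * ((x : ℝ) / ((Y : ℝ) ^ 2 * z ^ 2))) := by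
    have h8 : ((x / Y ^ 2 + 1 : ℕ) : ℝ) ≤ 2 * ((x : ℝ) / (Y : ℝ) ^ 2) := by
      have h9 : ((x / Y ^ 2 : ℕ) : ℝ) ≤ (x : ℝ) / ((Y ^ 2 : ℕ) : ℝ) := Nat.cast_div_le
      have h10 : 1 ≤ (x : ℝ) / (Y : ℝ) ^ 2 := by
        rw [le_div_iff₀ (by positivity)]
        linarith
      rw [Nat.cast_add, Nat.cast_one]
      rw [Nat.cast_pow] at h9
      linarith
    rw [div_le_iff₀ hqr]
    calc ((x / Y ^ 2 + 1 : ℕ) : ℝ) ≤ 2 * ((x : ℝ) / (Y : ℝ) ^ 2) := h8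
      _ = 2 * ((x : ℝ) / ((Y : ℝ) ^ 2 * z ^ 2)) * z ^ 2 := by
          field_simp
      _ ≤ 2 * ((x : ℝ) / ((Y : ℝ) ^ 2 * z ^ 2)) *
          (A * (1 + Real.log x) ^ 3 * ((f * f.totient : ℕ) : ℝ)) :=
          mul_le_mul_of_nonneg_left h2 (by positivity)
      _ = _ := by ring
  refine ⟨key, fun c => ?_⟩
  have h1 := Pool.Agent.TH43.LK.NN_triv_left (f * f.totient) hqpos c 1 (-(2 * Y : ℕ) : ℤ)
    (x / Y ^ 2 + 1) Y
  have h1' : (Pool.Agent.TH43.LK.NN (f * f.totient) c 1 (-(2 * Y : ℕ) : ℤ) (x / Y ^ 2 + 1) Y : ℝ) ≤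
      (Y : ℝ) * ((((x / Y ^ 2 + 1) / (f * f.totient) : ℕ) : ℝ) + 1) := by exact_mod_cast h1
  refine h1'.trans ?_
  apply mul_le_mul_of_nonneg_left _ hY0.le
  have h3 : ((((x / Y ^ 2 + 1) / (f * f.totient) : ℕ) : ℝ)) ≤
      ((x / Y ^ 2 + 1 : ℕ) : ℝ) / ((f * f.totient : ℕ) : ℝ) := Nat.cast_div_le
  linarith

/-- integers divisible by `f` and `-1` modulo `φ(f)` -/
theorem class_card (x f : ℕ) (hf : 1 ≤ f) (hco : Nat.Coprime f f.totient) :
    (((Icc 1 x).filter (fun n => f ∣ n ∧ f.totient ∣ n + 1)).card : ℝ) ≤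
      (x : ℝ) / ((f * f.totient : ℕ) : ℝ) + 1 := by
  classical
  have hphi : 0 < f.totient := Nat.totient_pos.2 hf
  have hqpos : 0 < f * f.totient := Nat.mul_pos hf hphi
  have h1 : ((Icc 1 x).filter (fun n => f ∣ n ∧ f.totient ∣ n + 1)).card ≤
      x / (f * f.totient) + 1 := by
    apply Omega.card_congr_le (f * f.totient) x hqpos
    · intro n hn
      rw [mem_filter, mem_Icc] at hn
      exact hn.1.2
    · intro n hn n' hn'
      rw [mem_filter, mem_Icc] at hn hn'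
      have e1 : n ≡ n' [MOD f] := by
        have a1 := (Nat.modEq_zero_iff_dvd).2 hn.2.1
        have a2 := (Nat.modEq_zero_iff_dvd).2 hn'.2.1
        exact a1.trans a2.symm
      have e2 : n ≡ n' [MOD f.totient] := by
        have a1 := (Nat.modEq_zero_iff_dvd).2 hn.2.2
        have a2 := (Nat.modEq_zero_iff_dvd).2 hn'.2.2
        exact Nat.ModEq.add_right_cancel' 1 (a1.trans a2.symm)
      exact (Nat.modEq_and_modEq_iff_modEq_mul hco).1 ⟨e1, e2⟩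
  have h2 : (((Icc 1 x).filter (fun n => f ∣ n ∧ f.totient ∣ n + 1)).card : ℝ) ≤
      ((x / (f * f.totient) : ℕ) : ℝ) + 1 := by exact_mod_cast h1
  have h3 : ((x / (f * f.totient) : ℕ) : ℝ) ≤ (x : ℝ) / ((f * f.totient : ℕ) : ℝ) :=
    Nat.cast_div_le
  linarith

end Pool.Agent.TH43.PL
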