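import Mathlib

/-!
# Small auxiliary facts
-/

set_option autoImplicit false

namespace Pool.Agent.TH43.PL

open Finset

theorem rp {X a b c : ℝ} (hX : 0 < X) (h : a + b = c) : X ^ a * X ^ b = X ^ c := by
  rw [← Real.rpow_add hX, h]

theorem rq {X a b c : ℝ} (hX : 0 < X) (h : a + b = c) : X ^ a * X ^ b = X ^ c := rp hX h

theorem sqle {a b : ℝ} (h : a ^ 2 ≤ b ^ 2) (hb : 0 ≤ b) : a ≤ b :=
  le_of_pow_le_pow_left₀ (by norm_num) hb h

theorem pick (A : Finset ℕ) (m : ℕ) (hm : 1 ≤ m) (hmA : m ≤ A.card) :
    ∃ q ∈ A, (A.filter (fun r => q ≤ r)).card = m := by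
  classical
  set b := A.sup id + 1 with hb
  have hlt : ∀ r ∈ A, r < b := by
    intro r hr
    have : r ≤ A.sup id := Finset.le_sup (f := id) hr
    omega
  set Pd : ℕ → Prop := fun q => m ≤ (A.filter (fun r => q ≤ r)).card with hPd
  have h0 : Pd 0 := by
    rw [hPd]
    simpa using hmA
  set q := Nat.findGreatest Pd b with hq
  have hPq : Pd q := Nat.findGreatest_spec (Nat.zero_le b) h0
  have hqb : q ≤ b := Nat.findGreatest_le b
  have hnb : ¬ Pd b := by
    rw [hPd]
    have : A.filter (fun r => b ≤ r) = ∅ := by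
      rw [filter_eq_empty_iff]
      intro r hr
      have := hlt r hr
      omega
    simp only [this, card_empty]
    omega
  have hqb' : q < b := by
    rcases hqb.eq_or_lt with h | h
    · rw [h] at hPq
      exact absurd hPq hnb
    · exact h
  have hn1 : ¬ Pd (q + 1) := Nat.findGreatest_is_greatest (Nat.lt_succ_self q) hqb'
  have hlt1 : (A.filter (fun r => q + 1 ≤ r)).card < m := not_le.1 hn1
  have hge : m ≤ (A.filter (fun r => q ≤ r)).card := hPq
  have hqA : q ∈ A := by
    by_contra hnq
    have : A.filter (fun r => q ≤ r) = A.filter (fun r => q + 1 ≤ r) := by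
      apply filter_congr
      intro r hr
      have : r ≠ q := fun h => hnq (h ▸ hr)
      omega
    rw [this] at hge
    omega
  refine ⟨q, hqA, ?_⟩
  have hsub : A.filter (fun r => q ≤ r) ⊆ insert q (A.filter (fun r => q + 1 ≤ r)) := by
    intro r hr
    rw [mem_filter] at hr
    rw [mem_insert, mem_filter]
    by_cases h : r = q
    · exact Or.inl h
    · exact Or.inr ⟨hr.1, by omega⟩
  have h2 := (card_le_card hsub).trans (card_insert_le _ _)
  omega

end Pool.Agent.TH43.PL
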