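import Pool.Agent.TH43.PL.Struct


/-!
# Solutions of `φ(n) ∣ n + 1` and the size of their largest prime factor
-/

set_option autoImplicit false

namespace Pool.Agent.TH43.PL

open Finset Pool.Agent.H95R2.Leh Pool.Agent.TH836.Leh

open Classical in
theorem QQ_sub (x y x' : ℕ) (ε : ℝ) (hy : 1 ≤ y) (hyx : (y : ℝ) < (x : ℝ) ^ ε)
    (hx' : (x : ℝ) ^ (1 - ε / 2) ≤ (x' : ℝ) + 1) :
    QQ x ε ⊆ ((Icc 1 x').filter LehP) ∪
      ((range (Nat.log 2 x + 1)).filter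
        (fun i => ((2 ^ i * y : ℕ) : ℝ) ≤ (x : ℝ) ^ (2 / 5 : ℝ))).biUnion
        (fun i => BQ x (2 ^ i * y) ε) := by
  intro n hn
  unfold QQ at hn
  rw [mem_filter, mem_Icc] at hn
  obtain ⟨⟨hn1, hnx⟩, hL, p, hp, hpn, h3, h25, h4⟩ := hn
  rw [mem_union]
  rcases Nat.lt_or_ge x' n with h5 | h5
  · right
    have hyp : y < p := by
      have : (y : ℝ) < (p : ℝ) := lt_of_lt_of_le hyx h3
      exact_mod_cast this
    set a := (p - 1) / y with ha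
    have ha0 : a ≠ 0 := by
      have : 0 < (p - 1) / y := Nat.div_pos (by omega) hy
      omega
    set i := Nat.log 2 a with hi
    have h1 : 2 ^ i ≤ a := Nat.pow_log_le_self 2 ha0
    have h2 : a < 2 ^ (i + 1) := Nat.lt_pow_succ_log_self (by norm_num) a
    have hpx : p ≤ x := (Nat.le_of_dvd (by omega) hpn).trans hnx
    have hlo : 2 ^ i * y < p := by
      have h3 : 2 ^ i * y ≤ a * y := Nat.mul_le_mul_right _ h1
      have h4 : a * y ≤ p - 1 := Nat.div_mul_le_self _ _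
      have := hp.one_lt
      omega
    have hhi : p ≤ 2 * (2 ^ i * y) := by
      have h3 : p - 1 < 2 ^ (i + 1) * y := (Nat.div_lt_iff_lt_mul hy).1 h2
      have h4 : 2 ^ (i + 1) * y = 2 * (2 ^ i * y) := by ring
      omega
    rw [mem_biUnion]
    refine ⟨i, ?_, ?_⟩
    · rw [mem_filter, mem_range]
      refine ⟨?_, ?_⟩
      · have : a ≤ x := (Nat.div_le_self _ _).trans (by omega)
        have := Nat.log_mono_right (b := 2) this
        omega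
      · have : ((2 ^ i * y : ℕ) : ℝ) ≤ (p : ℝ) := Nat.cast_le.2 hlo.le
        exact this.trans h25
    · unfold BQ
      rw [mem_filter, mem_Icc]
      refine ⟨⟨hn1, hnx⟩, hL, ?_, p, hp, hpn, hlo, hhi, h4⟩
      have : ((x' : ℝ) + 1) ≤ (n : ℝ) := by exact_mod_cast h5
      linarith
  · left
    rw [mem_filter, mem_Icc]
    exact ⟨⟨hn1, h5⟩, hL⟩

open Classical in
theorem leh_small (θ : ℝ) (hθ : 0 < θ) (hθ1 : θ ≤ 1 / 2) : ∃ C : ℝ, 0 < C ∧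
    ∀ x : ℕ, 1 ≤ x → ((((Icc 1 ⌊(x : ℝ) ^ (1 - θ)⌋₊).filter LehP).card : ℕ) : ℝ) ≤
      C * (x : ℝ) ^ (1 / 2 - θ / 4) := by
  obtain ⟨C2, hC2, hleh⟩ := leh_light
  obtain ⟨C4, hC4, hlog4⟩ := Pool.Agent.TH43.LK.log_pow_le 3 (θ / 4) (by positivity)
  refine ⟨C2 * C4, by positivity, ?_⟩
  intro x hx
  have hX1 : (1 : ℝ) ≤ (x : ℝ) := by exact_mod_cast hx
  have hXp : (0 : ℝ) < (x : ℝ) := by linarith
  obtain ⟨x', hx'⟩ : ∃ x' : ℕ, x' = ⌊(x : ℝ) ^ (1 - θ)⌋₊ := ⟨_, rfl⟩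
  rw [← hx']
  have hx'hi : (x' : ℝ) ≤ (x : ℝ) ^ (1 - θ) := by
    rw [hx']; exact Nat.floor_le (by positivity)
  have hx'1 : 1 ≤ x' := by
    rw [hx']
    apply Nat.le_floor
    push_cast
    exact Real.one_le_rpow hX1 (by linarith)
  have h5 := hleh x' hx'1
  have hx'0 : (0 : ℝ) < (x' : ℝ) := by exact_mod_cast hx'1
  have hx'x : (x' : ℝ) ≤ (x : ℝ) := by
    refine hx'hi.trans ?_
    calc (x : ℝ) ^ (1 - θ) ≤ (x : ℝ) ^ (1 : ℝ) :=
          Real.rpow_le_rpow_of_exponent_le hX1 (by linarith)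
      _ = x := Real.rpow_one _
  have h6 : Real.log (x' : ℝ) ≤ Real.log (x : ℝ) := Real.log_le_log hx'0 hx'x
  have h60 : 0 ≤ Real.log (x' : ℝ) := Real.log_natCast_nonneg x'
  have h7 : (1 + Real.log (x' : ℝ)) ^ 3 ≤ C4 * (x : ℝ) ^ (θ / 4) :=
    (pow_le_pow_left₀ (by linarith) (by linarith) 3).trans (hlog4 x hX1)
  have h8 : Real.sqrt (x' : ℝ) ≤ (x : ℝ) ^ (1 / 2 - θ / 2) := by
    calc Real.sqrt (x' : ℝ) ≤ Real.sqrt ((x : ℝ) ^ (1 - θ)) := Real.sqrt_le_sqrt hx'hi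
      _ = (x : ℝ) ^ ((1 - θ) * (1 / 2)) := by
          rw [Real.sqrt_eq_rpow, ← Real.rpow_mul hXp.le]
      _ = _ := by congr 1; ring
  refine h5.trans ?_
  calc C2 * (1 + Real.log (x' : ℝ)) ^ 3 * Real.sqrt (x' : ℝ) ≤
      C2 * (C4 * (x : ℝ) ^ (θ / 4)) * (x : ℝ) ^ (1 / 2 - θ / 2) := by
        apply mul_le_mul _ h8 (Real.sqrt_nonneg _) (by positivity)
        exact mul_le_mul_of_nonneg_left h7 hC2.le
    _ = C2 * C4 * ((x : ℝ) ^ (θ / 4) * (x : ℝ) ^ (1 / 2 - θ / 2)) := by ring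
    _ = _ := by
        rw [rq hXp (show θ / 4 + (1 / 2 - θ / 2) = 1 / 2 - θ / 4 by ring)]

theorem main_q (ε : ℝ) (hε : 0 < ε) (hε1 : ε ≤ 1 / 20) : ∃ δ C X0 : ℝ, 0 < δ ∧
    0 < C ∧ 1 ≤ X0 ∧ ∀ x : ℕ, X0 ≤ (x : ℝ) →
      ((QQ x ε).card : ℝ) ≤ C * (x : ℝ) ^ (1 / 2 - δ) := by
  classical
  obtain ⟨δ, C, X1, hδ, hδε, hC, hX1, hblk⟩ := block_bd ε hε hε1
  obtain ⟨C2, hC2, hleh⟩ := leh_small (ε / 2) (by positivity) (by linarith)
  obtain ⟨C3, hC3, hlog⟩ := Pool.Agent.TH43.LK.log_pow_le 4 (δ / 2) (by positivity)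
  obtain ⟨X2, hX2, habs⟩ := Pool.Agent.TH43.LQ.absorb 3 (by norm_num) 0 (ε / 4) (by positivity)
  set δ' : ℝ := min (δ / 2) (ε / 8) with hδ'
  have hd1 : δ' ≤ δ / 2 := min_le_left _ _
  have hd3 : δ' ≤ ε / 8 := min_le_right _ _
  have hd0 : 0 < δ' := lt_min (by positivity) (by positivity)
  refine ⟨δ', C2 + 2 * C * C3, max X1 X2, hd0, by positivity,
    le_trans hX1 (le_max_left _ _), ?_⟩
  intro x hX
  have hXX1 : X1 ≤ (x : ℝ) := (le_max_left _ _).trans hX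
  have hXX2 : X2 ≤ (x : ℝ) := (le_max_right _ _).trans hX
  have hX1' : (1 : ℝ) ≤ (x : ℝ) := hX1.trans hXX1
  have hXp : (0 : ℝ) < (x : ℝ) := by linarith
  have hxn : 1 ≤ x := by exact_mod_cast hX1'
  have h3 : 3 ≤ (x : ℝ) ^ (ε / 4) := by
    have := habs x hXX2
    rwa [pow_zero, mul_one] at this
  have hl0 : 0 ≤ Real.log (x : ℝ) := Real.log_nonneg hX1'
  obtain ⟨y, hy⟩ : ∃ y : ℕ, y = ⌈(x : ℝ) ^ (3 * ε / 4)⌉₊ := ⟨_, rfl⟩
  have hylo : (x : ℝ) ^ (3 * ε / 4) ≤ (y : ℝ) := by rw [hy]; exact Nat.le_ceil _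
  have hyhi : (y : ℝ) < (x : ℝ) ^ (3 * ε / 4) + 1 := by
    rw [hy]; exact Nat.ceil_lt_add_one (by positivity)
  have hx34 : 1 ≤ (x : ℝ) ^ (3 * ε / 4) := Real.one_le_rpow hX1' (by positivity)
  have hy_one : 1 ≤ y := by
    have : (1 : ℝ) ≤ (y : ℝ) := hx34.trans hylo
    exact_mod_cast this
  have hyx : (y : ℝ) < (x : ℝ) ^ ε := by
    have h5 : (x : ℝ) ^ ε = (x : ℝ) ^ (3 * ε / 4) * (x : ℝ) ^ (ε / 4) := (rq hXp (by ring)).symm
    have h6 : (x : ℝ) ^ (3 * ε / 4) * 3 ≤ (x : ℝ) ^ (3 * ε / 4) * (x : ℝ) ^ (ε / 4) :=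
      mul_le_mul_of_nonneg_left h3 (by positivity)
    rw [h5]
    linarith
  have hx'lo : (x : ℝ) ^ (1 - ε / 2) ≤ (⌊(x : ℝ) ^ (1 - ε / 2)⌋₊ : ℝ) + 1 :=
    (Nat.lt_floor_add_one _).le
  have hp1 : ((((Icc 1 ⌊(x : ℝ) ^ (1 - ε / 2)⌋₊).filter LehP).card : ℕ) : ℝ) ≤
      C2 * (x : ℝ) ^ (1 / 2 - δ') := by
    refine (hleh x hxn).trans ?_
    exact mul_le_mul_of_nonneg_left (Real.rpow_le_rpow_of_exponent_le hX1' (by linarith)) hC2.le
  -- the blocks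
  have hp3 : ((((range (Nat.log 2 x + 1)).filter
        (fun i => ((2 ^ i * y : ℕ) : ℝ) ≤ (x : ℝ) ^ (2 / 5 : ℝ))).biUnion
        (fun i => BQ x (2 ^ i * y) ε)).card : ℝ) ≤ 2 * C * C3 * (x : ℝ) ^ (1 / 2 - δ') := by
    have h5 : ((((range (Nat.log 2 x + 1)).filter
        (fun i => ((2 ^ i * y : ℕ) : ℝ) ≤ (x : ℝ) ^ (2 / 5 : ℝ))).biUnion
        (fun i => BQ x (2 ^ i * y) ε)).card : ℝ) ≤
        ∑ i ∈ (range (Nat.log 2 x + 1)).filter
          (fun i => ((2 ^ i * y : ℕ) : ℝ) ≤ (x : ℝ) ^ (2 / 5 : ℝ)),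
          ((BQ x (2 ^ i * y) ε).card : ℝ) := by
      exact_mod_cast card_biUnion_le
    have h6 : ∀ i ∈ (range (Nat.log 2 x + 1)).filter
          (fun i => ((2 ^ i * y : ℕ) : ℝ) ≤ (x : ℝ) ^ (2 / 5 : ℝ)),
        ((BQ x (2 ^ i * y) ε).card : ℝ) ≤
        C * (1 + Real.log x) ^ 3 * (x : ℝ) ^ (1 / 2 - δ) := by
      intro i hi
      rw [mem_filter] at hi
      apply hblk x (2 ^ i * y) hXX1
      · refine hylo.trans ?_
        have : y ≤ 2 ^ i * y := Nat.le_mul_of_pos_left y (by positivity)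
        exact_mod_cast this
      · exact hi.2
    refine h5.trans ((sum_le_sum h6).trans ?_)
    rw [sum_const, nsmul_eq_mul]
    have h7 : (((range (Nat.log 2 x + 1)).filter
          (fun i => ((2 ^ i * y : ℕ) : ℝ) ≤ (x : ℝ) ^ (2 / 5 : ℝ))).card : ℝ) ≤
        2 * (1 + Real.log x) := by
      have h8 : ((range (Nat.log 2 x + 1)).filter
          (fun i => ((2 ^ i * y : ℕ) : ℝ) ≤ (x : ℝ) ^ (2 / 5 : ℝ))).card ≤
          Nat.log 2 x + 1 := by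
        refine (card_filter_le _ _).trans ?_
        simp
      have h9 : (((range (Nat.log 2 x + 1)).filter
          (fun i => ((2 ^ i * y : ℕ) : ℝ) ≤ (x : ℝ) ^ (2 / 5 : ℝ))).card : ℝ) ≤
          ((Nat.log 2 x + 1 : ℕ) : ℝ) := Nat.cast_le.2 h8
      refine h9.trans ?_
      have h2 : (2 : ℝ) ^ (Nat.log 2 x) ≤ x := by exact_mod_cast Nat.pow_log_le_self 2 (by omega)
      have h3 := Real.log_le_log (by positivity) h2
      rw [Real.log_pow] at h3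
      have h4 := Real.log_two_gt_d9
      have h5 : (0 : ℝ) ≤ (Nat.log 2 x : ℝ) := Nat.cast_nonneg _
      have h10 : (Nat.log 2 x : ℝ) * (1 / 2) ≤ (Nat.log 2 x : ℝ) * Real.log 2 :=
        mul_le_mul_of_nonneg_left (by linarith) h5
      push_cast
      linarith
    have h8 := hlog x hX1'
    calc (((range (Nat.log 2 x + 1)).filter
          (fun i => ((2 ^ i * y : ℕ) : ℝ) ≤ (x : ℝ) ^ (2 / 5 : ℝ))).card : ℝ) *
        (C * (1 + Real.log x) ^ 3 * (x : ℝ) ^ (1 / 2 - δ)) ≤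
        (2 * (1 + Real.log x)) * (C * (1 + Real.log x) ^ 3 * (x : ℝ) ^ (1 / 2 - δ)) :=
          mul_le_mul_of_nonneg_right h7 (by positivity)
      _ = 2 * C * ((1 + Real.log x) ^ 4 * (x : ℝ) ^ (1 / 2 - δ)) := by ring
      _ ≤ 2 * C * ((C3 * (x : ℝ) ^ (δ / 2)) * (x : ℝ) ^ (1 / 2 - δ)) := by
          apply mul_le_mul_of_nonneg_left _ (by positivity)
          exact mul_le_mul_of_nonneg_right h8 (by positivity)
      _ = 2 * C * C3 * ((x : ℝ) ^ (δ / 2) * (x : ℝ) ^ (1 / 2 - δ)) := by ring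
      _ = 2 * C * C3 * (x : ℝ) ^ (1 / 2 - δ / 2) := by
          rw [rq hXp (show δ / 2 + (1 / 2 - δ) = 1 / 2 - δ / 2 by ring)]
      _ ≤ _ := by
          apply mul_le_mul_of_nonneg_left _ (by positivity)
          exact Real.rpow_le_rpow_of_exponent_le hX1' (by linarith)
  have hsub := card_le_card (QQ_sub x y _ ε hy_one hyx hx'lo)
  have hsub2 := hsub.trans (card_union_le _ _)
  have hsub3 : ((QQ x ε).card : ℝ) ≤
      ((((Icc 1 ⌊(x : ℝ) ^ (1 - ε / 2)⌋₊).filter LehP).card : ℕ) : ℝ) +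
      ((((range (Nat.log 2 x + 1)).filter
        (fun i => ((2 ^ i * y : ℕ) : ℝ) ≤ (x : ℝ) ^ (2 / 5 : ℝ))).biUnion
        (fun i => BQ x (2 ^ i * y) ε)).card : ℝ) := by exact_mod_cast hsub2
  calc ((QQ x ε).card : ℝ) ≤ C2 * (x : ℝ) ^ (1 / 2 - δ') +
        2 * C * C3 * (x : ℝ) ^ (1 / 2 - δ') := by linarith
    _ = _ := by ring

open Classical in
/-- solutions up to `x` with largest prime factor `p ≥ x^ε` such that for every `t ≥ 2`
`p^(2t+1)` is not close to `x` or at most `t + 1` prime factors are close to `p` -/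
noncomputable def RR (x : ℕ) (ε : ℝ) : Finset ℕ :=
  (Icc 1 x).filter (fun n : ℕ => LehP n ∧ ∃ p : ℕ, p.Prime ∧ p ∣ n ∧
    (∀ r : ℕ, r.Prime → r ∣ n → r ≤ p) ∧ (x : ℝ) ^ ε ≤ (p : ℝ) ∧
    ∀ t : ℕ, 2 ≤ t → (p : ℝ) ^ (2 * t + 1) ≤ (x : ℝ) ^ (1 - ε) ∨
      (x : ℝ) ^ (1 + ε) ≤ (p : ℝ) ^ (2 * t + 1) ∨
      (n.primeFactors.filter (fun r : ℕ => (p : ℝ) * (x : ℝ) ^ (-ε) < r)).card ≤ t + 1)

open Classical in
theorem RR_sub (ε η : ℝ) (hη : 0 < η) (hη1 : η ≤ 1 / 20) (hηε : 2 * η ≤ ε) (x : ℕ) (hx : 2 ≤ x)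
    (hbig : 32768 * (1 + Real.log x) ^ 3 < (x : ℝ) ^ (1 / 5 : ℝ)) :
    RR x ε ⊆ ((Icc 1 ⌊(x : ℝ) ^ (1 - η / 8)⌋₊).filter LehP) ∪
      (QQ x (η ^ 2 / 16) ∪ WB x (η / 4)) := by
  intro n hn
  unfold RR at hn
  rw [mem_filter, mem_Icc] at hn
  obtain ⟨⟨hn1, hnx⟩, hL, p, hp, hpn, hmax, hplo, hcond⟩ := hn
  have hX1 : (1 : ℝ) < (x : ℝ) := by exact_mod_cast hx
  have hX1' : (1 : ℝ) ≤ (x : ℝ) := hX1.le
  have hXp : (0 : ℝ) < (x : ℝ) := by linarith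
  rw [mem_union]
  rcases le_or_gt (n : ℝ) ((x : ℝ) ^ (1 - η / 8)) with h1 | h1
  · left
    rw [mem_filter, mem_Icc]
    exact ⟨⟨hn1, Nat.le_floor h1⟩, hL⟩
  · right
    apply struct η hη hη1 x n p hx hL hnx h1.le hp hpn hmax
      ((Real.rpow_le_rpow_of_exponent_le hX1' hηε).trans hplo) hbig
    intro t ht
    rcases hcond t ht with h3 | h3 | h3
    · exact Or.inl (h3.trans (Real.rpow_le_rpow_of_exponent_le hX1' (by linarith)))
    · exact Or.inr (Or.inl ((Real.rpow_le_rpow_of_exponent_le hX1' (by linarith)).trans h3))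
    · refine Or.inr (Or.inr ((card_le_card ?_).trans h3))
      intro r hr
      rw [mem_filter] at hr ⊢
      refine ⟨hr.1, lt_of_le_of_lt ?_ hr.2⟩
      apply mul_le_mul_of_nonneg_left _ (Nat.cast_nonneg _)
      exact Real.rpow_le_rpow_of_exponent_le hX1' (by linarith)

theorem main_r (ε : ℝ) (hε : 0 < ε) : ∃ δ C : ℝ, 0 < δ ∧ 0 < C ∧ ∀ x : ℕ,
    ((RR x ε).card : ℝ) ≤ C * (x : ℝ) ^ (1 / 2 - δ) := by
  classical
  obtain ⟨η, hη, hη1, hηε⟩ : ∃ η : ℝ, 0 < η ∧ η ≤ 1 / 20 ∧ 2 * η ≤ ε :=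
    ⟨min (ε / 2) (1 / 20), lt_min (by positivity) (by norm_num), min_le_right _ _, by
      have := min_le_left (ε / 2) (1 / 20)
      linarith⟩
  obtain ⟨C1, hC1, hp1⟩ := leh_small (η / 8) (by positivity) (by linarith)
  obtain ⟨δ3, C3, X3, hδ3, hC3, hX3, hp3⟩ := main_q (η ^ 2 / 16) (by positivity)
    (by nlinarith)
  obtain ⟨C4, X4, hC4, hX4, hp4⟩ := win (η / 4) (by positivity) (by linarith)
  obtain ⟨X5, hX5, habs⟩ := Pool.Agent.TH43.LQ.absorb 65536 (by norm_num) 3 (1 / 5) (by norm_num)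
  set δ : ℝ := min (min δ3 (1 / 60)) (η / 32) with hδ
  have hd1 : δ ≤ δ3 := (min_le_left _ _).trans (min_le_left _ _)
  have hd2 : δ ≤ 1 / 60 := (min_le_left _ _).trans (min_le_right _ _)
  have hd3 : δ ≤ η / 32 := min_le_right _ _
  have hd0 : 0 < δ := lt_min (lt_min hδ3 (by norm_num)) (by positivity)
  refine ⟨δ, (C1 + C3 + C4) + (X3 + X4 + X5 + 2), hd0, by linarith, ?_⟩
  intro x
  rcases Nat.eq_zero_or_pos x with h0 | h0
  · subst h0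
    have : RR 0 ε = ∅ := by unfold RR; simp
    rw [this]
    simp only [card_empty, Nat.cast_zero]
    have : 0 ≤ (C1 + C3 + C4) + (X3 + X4 + X5 + 2) := by linarith
    positivity
  have hX1 : (1 : ℝ) ≤ (x : ℝ) := by exact_mod_cast h0
  have hw1 : 1 ≤ (x : ℝ) ^ (1 / 2 - δ) := Real.one_le_rpow hX1 (by linarith)
  obtain ⟨w, hw⟩ : ∃ w : ℝ, w = (x : ℝ) ^ (1 / 2 - δ) := ⟨_, rfl⟩
  rw [← hw] at hw1 ⊢
  rcases le_or_gt (X3 + X4 + X5 + 2) (x : ℝ) with h1 | h1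
  · have hx2 : 2 ≤ x := by
      have : (2 : ℝ) ≤ (x : ℝ) := by linarith
      exact_mod_cast this
    have hbig : 32768 * (1 + Real.log x) ^ 3 < (x : ℝ) ^ (1 / 5 : ℝ) := by
      have h2 := habs x (by linarith)
      have h3 : (1 : ℝ) ≤ (1 + Real.log x) ^ 3 :=
        one_le_pow₀ (by have := Real.log_nonneg hX1; linarith)
      linarith
    have hsub := card_le_card (RR_sub ε η hη hη1 hηε x hx2 hbig)
    have hsub2 := hsub.trans ((card_union_le _ _).trans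
      (Nat.add_le_add_left (card_union_le _ _) _))
    have hsub3 : ((RR x ε).card : ℝ) ≤
        ((((Icc 1 ⌊(x : ℝ) ^ (1 - η / 8)⌋₊).filter LehP).card : ℕ) : ℝ) +
        (((QQ x (η ^ 2 / 16)).card : ℝ) + ((WB x (η / 4)).card : ℝ)) := by
      exact_mod_cast hsub2
    have e1 : ((((Icc 1 ⌊(x : ℝ) ^ (1 - η / 8)⌋₊).filter LehP).card : ℕ) : ℝ) ≤ C1 * w := by
      refine (hp1 x h0).trans ?_
      rw [hw]
      exact mul_le_mul_of_nonneg_left (Real.rpow_le_rpow_of_exponent_le hX1 (by linarith)) hC1.le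
    have e3 : ((QQ x (η ^ 2 / 16)).card : ℝ) ≤ C3 * w := by
      refine (hp3 x (by linarith)).trans ?_
      rw [hw]
      exact mul_le_mul_of_nonneg_left (Real.rpow_le_rpow_of_exponent_le hX1 (by linarith)) hC3.le
    have e4 : ((WB x (η / 4)).card : ℝ) ≤ C4 * w := by
      refine (hp4 x (by linarith)).trans ?_
      rw [hw]
      exact mul_le_mul_of_nonneg_left (Real.rpow_le_rpow_of_exponent_le hX1 (by linarith)) hC4.le
    have e5 : 0 ≤ (X3 + X4 + X5 + 2) * w := mul_nonneg (by linarith) (by linarith)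
    calc ((RR x ε).card : ℝ) ≤ C1 * w + (C3 * w + C4 * w) := by linarith
      _ ≤ (C1 + C3 + C4 + (X3 + X4 + X5 + 2)) * w := by linarith
  · have h2 : (RR x ε).card ≤ x := by
      unfold RR
      refine (card_filter_le _ _).trans ?_
      simp
    have h3 : ((RR x ε).card : ℝ) ≤ (x : ℝ) := Nat.cast_le.2 h2
    have h4 : X3 + X4 + X5 + 2 ≤ (X3 + X4 + X5 + 2) * w := le_mul_of_one_le_right (by linarith) hw1
    have h5 : 0 ≤ (C1 + C3 + C4) * w := mul_nonneg (by linarith) (by linarith)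
    calc ((RR x ε).card : ℝ) ≤ (C1 + C3 + C4) * w + (X3 + X4 + X5 + 2) * w := by linarith
      _ = _ := by ring

end Pool.Agent.TH43.PL
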