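import Pool.Agent.TH43.PL.Split
import Pool.Agent.TH43.PL.Aux0

/-!
# The bound for a block, solutions of `φ(n) ∣ n + 1`
-/

set_option autoImplicit false

namespace Pool.Agent.TH43.PL

open Finset Pool.Agent.H95R2.Leh Pool.Agent.TH836.Leh

open Pool.Agent.TH43.LQ (E2 E3 greedy omega_absorb absorb good_bound)

/-- the bound for the good divisors -/
theorem good_block (ε τ κ : ℝ) (M : ℕ) (hε : 0 < ε) (hτ : τ = ε / 256)
    (hM : 8 / ε ≤ M) (hκ : κ = τ * (1 / 2 : ℝ) ^ (2 * M + 1 + 1) / 8) : ∃ X0 : ℝ, 1 ≤ X0 ∧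
    ∀ (x Y f : ℕ) (F : ℝ), X0 ≤ (x : ℝ) → 1 ≤ Y → (x : ℝ) ^ (3 * ε / 4) ≤ Y →
      (Y : ℝ) ≤ (x : ℝ) ^ (2 / 5 : ℝ) → F = (x : ℝ) ^ (1 / 2 + κ / 2) / Y → F ≤ x →
      f ∈ E3 F (1 + 2 * Real.log x) (Y * (x : ℝ) ^ (-(ε / 2))) ((x : ℝ) ^ (ε / 16))
        ((x : ℝ) ^ (τ / 2) / (16 * (1 + 2 * Real.log x))) →
      ∀ c : ZMod (f * f.totient),
        (Pool.Agent.TH43.LK.NN (f * f.totient) c 1 (-(2 * Y : ℕ) : ℤ) (x / Y ^ 2 + 1) Y : ℝ) ≤
        48 * (((x / Y ^ 2 + 1 : ℕ) : ℝ) / ((f * f.totient : ℕ) : ℝ)) * Y +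
          20 * (Y * (x : ℝ) ^ (-κ)) := by
  classical
  have hτ0 : 0 < τ := by rw [hτ]; positivity
  set c0 : ℝ := (1 / 2 : ℝ) ^ (2 * M + 1 + 1) with hc0
  have hc00 : 0 < c0 := by positivity
  have hc01 : c0 ≤ 1 := pow_le_one₀ (by norm_num) (by norm_num)
  have hκ0 : 0 < κ := by rw [hκ]; positivity
  have hκτ : κ ≤ τ / 32 := by
    have h1 : c0 ≤ 1 / 4 := by
      rw [hc0]
      calc (1 / 2 : ℝ) ^ (2 * M + 1 + 1) ≤ (1 / 2 : ℝ) ^ 2 :=
            pow_le_pow_of_le_one (by norm_num) (by norm_num) (by omega)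
        _ = 1 / 4 := by norm_num
    rw [hκ]
    nlinarith
  obtain ⟨X1, hX1, hom⟩ := omega_absorb (2 * M + 1 + 2) (τ / 32) (by positivity)
  obtain ⟨X2, hX2, hlg⟩ := absorb 32 (by norm_num) 1 (τ / 4) (by positivity)
  obtain ⟨X3, hX3, hlg3⟩ := absorb 2 (by norm_num) 0 1 (by norm_num)
  refine ⟨max (max X1 X2) X3, le_trans hX1 ((le_max_left _ _).trans (le_max_left _ _)), ?_⟩
  intro x Y f F hX hY hYlo hYhi hF hFx hf c
  have hXX1 : X1 ≤ (x : ℝ) := ((le_max_left _ _).trans (le_max_left _ _)).trans hX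
  have hXX2 : X2 ≤ (x : ℝ) := ((le_max_right _ _).trans (le_max_left _ _)).trans hX
  have hXX3 : X3 ≤ (x : ℝ) := (le_max_right _ _).trans hX
  have h2x : (2 : ℝ) ≤ (x : ℝ) := by
    have := hlg3 x hXX3
    rw [pow_zero, Real.rpow_one] at this
    linarith
  set X : ℝ := (x : ℝ) with hXdef
  have hXp : 0 < X := by linarith
  have hX1' : 1 ≤ X := by linarith
  have hl0 : 0 ≤ Real.log X := Real.log_nonneg hX1'
  have hY0 : (0 : ℝ) < Y := by exact_mod_cast hY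
  have hF0 : 0 < F := by rw [hF]; positivity
  unfold E3 at hf
  rw [mem_filter, mem_Icc] at hf
  obtain ⟨⟨hf1, hf2⟩, hf3, hsq, hco, hsm, hgood, d, hdf, hd1, hd2⟩ := hf
  have hfF : (f : ℝ) ≤ F := (Nat.cast_le.2 hf2).trans (Nat.floor_le hF0.le)
  -- the factor `q0`
  have hd0 : 1 ≤ d := Nat.pos_of_dvd_of_pos hdf hf1
  have hT1 : 1 ≤ X ^ (ε / 16) := Real.one_le_rpow hX1' (by positivity)
  have hA01 : 1 ≤ X ^ (τ / 4) := Real.one_le_rpow hX1' (by positivity)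
  have hAd : X ^ (τ / 4) ≤ (d : ℝ) := by
    refine le_trans ?_ hd1.le
    have h1 := hlg X hXX2
    rw [pow_one] at h1
    rw [le_div_iff₀ (by positivity)]
    have h2 : 16 * (1 + 2 * Real.log X) ≤ X ^ (τ / 4) := by linarith
    calc X ^ (τ / 4) * (16 * (1 + 2 * Real.log X)) ≤ X ^ (τ / 4) * X ^ (τ / 4) :=
          mul_le_mul_of_nonneg_left h2 (by positivity)
      _ = X ^ (τ / 2) := rp hXp (by ring)
  obtain ⟨q0, hq0d, hq0lo, hq0hi⟩ := greedy d hd0 (X ^ (ε / 16)) hT1 hd2 (X ^ (τ / 4)) hA01 hAd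
  have hq0f : q0 ∣ f := hq0d.trans hdf
  have hq01 : 1 ≤ q0 := Nat.pos_of_dvd_of_pos hq0f hf1
  have hq0R : (0 : ℝ) < q0 := by exact_mod_cast hq01
  -- the parameter `D`
  set D : ℝ := (Y : ℝ) * X ^ (-(ε / 2)) with hD
  have hDlo : X ^ (ε / 4) ≤ D := by
    rw [hD]
    calc X ^ (ε / 4) = X ^ (3 * ε / 4) * X ^ (-(ε / 2)) := (rp hXp (by ring)).symm
      _ ≤ (Y : ℝ) * X ^ (-(ε / 2)) := mul_le_mul_of_nonneg_right hYlo (by positivity)
  have hD1 : 1 ≤ D := (Real.one_le_rpow hX1' (by positivity)).trans hDlo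
  -- the modulus
  have hqle : ((f * f.totient : ℕ) : ℝ) ≤ F ^ 2 := by
    have h1 : (f.totient : ℝ) ≤ f := by exact_mod_cast Nat.totient_le f
    push_cast
    calc (f : ℝ) * f.totient ≤ F * F := mul_le_mul hfF (h1.trans hfF) (Nat.cast_nonneg _) hF0.le
      _ = F ^ 2 := by ring
  have hMD : ((f * f.totient : ℕ) : ℝ) < D ^ (M + 1) := by
    have h1 : F ^ 2 ≤ X ^ (2 : ℝ) := by
      have := pow_le_pow_left₀ hF0.le hFx 2
      exact_mod_cast this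
    have h2 : X ^ (2 : ℝ) < X ^ (ε / 4 * ((M + 1 : ℕ) : ℝ)) := by
      apply Real.rpow_lt_rpow_of_exponent_lt (by linarith)
      push_cast
      rw [div_le_iff₀ hε] at hM
      nlinarith
    have h3 : X ^ (ε / 4 * ((M + 1 : ℕ) : ℝ)) ≤ D ^ (M + 1) := by
      rw [Real.rpow_mul hXp.le, Real.rpow_natCast]
      exact pow_le_pow_left₀ (by positivity) hDlo _
    linarith
  -- the number of `s`
  have hS1 : 1 ≤ x / Y ^ 2 + 1 := Nat.le_add_left 1 _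
  have hSlo : X / (Y : ℝ) ^ 2 ≤ 2 * ((x / Y ^ 2 + 1 : ℕ) : ℝ) := by
    have h1 : x < (x / Y ^ 2 + 1) * Y ^ 2 := by
      have h2 := Nat.lt_div_mul_add (a := x) (b := Y ^ 2) (by positivity)
      calc x < x / Y ^ 2 * Y ^ 2 + Y ^ 2 := h2
        _ = _ := by ring
    have h2 : X < ((x / Y ^ 2 + 1 : ℕ) : ℝ) * (Y : ℝ) ^ 2 := by
      have h3 : (x : ℝ) < (((x / Y ^ 2 + 1) * Y ^ 2 : ℕ) : ℝ) := Nat.cast_lt.2 h1
      rw [Nat.cast_mul, Nat.cast_pow] at h3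
      exact h3
    rw [div_le_iff₀ (by positivity)]
    have h4 : (0 : ℝ) ≤ ((x / Y ^ 2 + 1 : ℕ) : ℝ) * (Y : ℝ) ^ 2 := by positivity
    linarith
  have hSH : ((f * f.totient : ℕ) : ℝ) ≤ 6 * ((x / Y ^ 2 + 1 : ℕ) : ℝ) * X ^ κ := by
    refine hqle.trans ?_
    have h1 : F ^ 2 = X / (Y : ℝ) ^ 2 * X ^ κ := by
      rw [hF, div_pow]
      have h2 : (X ^ (1 / 2 + κ / 2)) ^ 2 = X * X ^ κ := by
        rw [← Real.rpow_natCast, ← Real.rpow_mul hXp.le]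
        push_cast
        rw [show (1 / 2 + κ / 2) * 2 = 1 + κ by ring, Real.rpow_add hXp, Real.rpow_one]
      rw [h2]
      ring
    rw [h1]
    have h3 : X / (Y : ℝ) ^ 2 ≤ 6 * ((x / Y ^ 2 + 1 : ℕ) : ℝ) := by
      have : (0 : ℝ) ≤ ((x / Y ^ 2 + 1 : ℕ) : ℝ) := Nat.cast_nonneg _
      linarith
    exact mul_le_mul_of_nonneg_right h3 (by positivity)
  -- the second small quantity
  have hDq : D * q0 / Y ≤ X ^ (-(ε / 4)) := by
    have h1 : D * q0 / Y = X ^ (-(ε / 2)) * q0 := by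
      rw [hD]
      field_simp
    rw [h1]
    calc X ^ (-(ε / 2)) * q0 ≤ X ^ (-(ε / 2)) * (X ^ (τ / 4) * X ^ (ε / 16)) :=
          mul_le_mul_of_nonneg_left hq0hi (by positivity)
      _ = X ^ (-(ε / 2) + (τ / 4 + ε / 16)) := by
          rw [← Real.rpow_add hXp, ← Real.rpow_add hXp]
      _ ≤ X ^ (-(ε / 4)) := by
          apply Real.rpow_le_rpow_of_exponent_le hX1'
          rw [hτ]
          linarith
  have hDq1 : D * q0 / Y ≤ 1 := by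
    refine hDq.trans ?_
    exact Real.rpow_le_one_of_one_le_of_nonpos hX1' (by linarith)
  have hmain := good_bound M f hf1 hsq hco D hD1 hsm hgood q0 hq0f hMD c (x / Y ^ 2 + 1) Y hS1 hY
    (X ^ κ) (by positivity) hSH hDq1 (-(2 * Y : ℕ) : ℤ)
  refine hmain.trans ?_
  have hE1 : ((2 : ℝ) ^ ((2 * M + 1 + 2) * q0.primeFactors.card) * X ^ κ / q0) ^
      ((1 / 2 : ℝ) ^ (2 * M + 1 + 1)) ≤ X ^ (-κ) := by
    have hq0x : (q0 : ℝ) ≤ X := by
      have h1 : (q0 : ℝ) ≤ f := by exact_mod_cast Nat.le_of_dvd hf1 hq0f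
      linarith
    have h1 := hom X q0 hXX1 hq01 hq0x
    have h2 : (2 : ℝ) ^ ((2 * M + 1 + 2) * q0.primeFactors.card) * X ^ κ / q0 ≤ X ^ (-(τ / 8)) := by
      rw [div_le_iff₀ hq0R]
      calc (2 : ℝ) ^ ((2 * M + 1 + 2) * q0.primeFactors.card) * X ^ κ ≤ X ^ (τ / 32) * X ^ κ :=
            mul_le_mul_of_nonneg_right h1 (by positivity)
        _ = X ^ (τ / 32 + κ) := rp hXp rfl
        _ ≤ X ^ (τ / 8) := Real.rpow_le_rpow_of_exponent_le hX1' (by linarith)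
        _ = X ^ (-(τ / 8)) * X ^ (τ / 4) := (rp hXp (by ring)).symm
        _ ≤ X ^ (-(τ / 8)) * q0 := mul_le_mul_of_nonneg_left hq0lo (by positivity)
    calc _ ≤ (X ^ (-(τ / 8))) ^ ((1 / 2 : ℝ) ^ (2 * M + 1 + 1)) :=
          Real.rpow_le_rpow (by positivity) h2 (by positivity)
      _ = X ^ (-κ) := by
          rw [← Real.rpow_mul hXp.le, ← hc0, hκ]
          congr 1
          ring
  have hE2 : (D * q0 / Y) ^ ((1 / 2 : ℝ) ^ (2 * M + 1)) ≤ X ^ (-κ) := by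
    calc _ ≤ (X ^ (-(ε / 4))) ^ ((1 / 2 : ℝ) ^ (2 * M + 1)) :=
          Real.rpow_le_rpow (by positivity) hDq (by positivity)
      _ = X ^ (-(ε / 4) * (1 / 2 : ℝ) ^ (2 * M + 1)) := by
          rw [← Real.rpow_mul hXp.le]
      _ ≤ X ^ (-κ) := by
          apply Real.rpow_le_rpow_of_exponent_le hX1'
          have h1 : c0 ≤ (1 / 2 : ℝ) ^ (2 * M + 1) := by
            rw [hc0]
            exact pow_le_pow_of_le_one (by norm_num) (by norm_num) (by omega)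
          have h2 : κ ≤ ε / 4 * c0 := by
            rw [hκ, hτ]
            have := mul_pos hε hc00
            linarith
          have h3 : ε / 4 * c0 ≤ ε / 4 * (1 / 2 : ℝ) ^ (2 * M + 1) :=
            mul_le_mul_of_nonneg_left h1 (by positivity)
          linarith
  have h20 : 4 * ((Y : ℝ) * (((2 : ℝ) ^ ((2 * M + 1 + 2) * q0.primeFactors.card) * X ^ κ / q0) ^
      ((1 / 2 : ℝ) ^ (2 * M + 1 + 1)) + 4 * (D * q0 / Y) ^ ((1 / 2 : ℝ) ^ (2 * M + 1)))) ≤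
      20 * (Y * X ^ (-κ)) := by
    have h1 : ((2 : ℝ) ^ ((2 * M + 1 + 2) * q0.primeFactors.card) * X ^ κ / q0) ^
      ((1 / 2 : ℝ) ^ (2 * M + 1 + 1)) + 4 * (D * q0 / Y) ^ ((1 / 2 : ℝ) ^ (2 * M + 1)) ≤
      5 * X ^ (-κ) := by linarith
    have h2 := mul_le_mul_of_nonneg_left h1 hY0.le
    linarith
  linarith

end Pool.Agent.TH43.PL
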