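import Pool.Agent.TH43.PL.Win
import Pool.Agent.TH43.PL.Blk
import Pool.Agent.TH43.PL.Light
import Pool.Agent.TH43.PL.Sel

/-!
# Structure of the large prime factors of a solution of `φ(n) ∣ n + 1`
-/

set_option autoImplicit false

namespace Pool.Agent.TH43.PL

open Finset Pool.Agent.H95R2.Leh Pool.Agent.TH836.Leh

open Classical in
/-- solutions up to `x` with an isolated prime factor -/
noncomputable def QQ (x : ℕ) (ε : ℝ) : Finset ℕ :=
  (Icc 1 x).filter (fun n : ℕ => LehP n ∧ ∃ p : ℕ, p.Prime ∧ p ∣ n ∧ (x : ℝ) ^ ε ≤ (p : ℝ) ∧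
    (p : ℝ) ≤ (x : ℝ) ^ (2 / 5 : ℝ) ∧
    ∏ r ∈ n.primeFactors.filter (fun r : ℕ => r ≠ p ∧ (p : ℝ) * (x : ℝ) ^ (-ε) < (r : ℝ)),
      (r : ℝ) ≤ (x : ℝ) ^ (1 / 2 - ε))

open Classical in
/-- few primes near the largest one, and it is not too large -/
theorem in_QQ (κ : ℝ) (hκ : 0 < κ) (x n p j : ℕ) (hx : 2 ≤ x) (hL : LehP n) (hnx : n ≤ x)
    (hp : p.Prime) (hpn : p ∣ n) (hmax : ∀ r : ℕ, r.Prime → r ∣ n → r ≤ p)
    (hplo : (x : ℝ) ^ κ ≤ p) (hp25 : (p : ℝ) ≤ (x : ℝ) ^ (2 / 5 : ℝ))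
    (hcard : (n.primeFactors.filter (fun r : ℕ => (p : ℝ) * (x : ℝ) ^ (-κ) < r)).card ≤ j + 1)
    (hj : (p : ℝ) ^ (2 * j) ≤ (x : ℝ) ^ (1 - 2 * κ)) : n ∈ QQ x κ := by
  have hX1 : (1 : ℝ) < (x : ℝ) := by exact_mod_cast hx
  have hXp : (0 : ℝ) < (x : ℝ) := by linarith
  have hn0 : n ≠ 0 := by have := hL.1; omega
  have hp1 : (1 : ℝ) ≤ (p : ℝ) := by exact_mod_cast hp.one_lt.le
  unfold QQ
  rw [mem_filter, mem_Icc]
  refine ⟨⟨by omega, hnx⟩, hL, p, hp, hpn, hplo, hp25, ?_⟩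
  set A1 := n.primeFactors.filter (fun r : ℕ => r ≠ p ∧ (p : ℝ) * (x : ℝ) ^ (-κ) < r) with hA1
  have hpm : p ∈ n.primeFactors := Nat.mem_primeFactors.2 ⟨hp, hpn, hn0⟩
  have hlt1 : (x : ℝ) ^ (-κ) < 1 := Real.rpow_lt_one_of_one_lt_of_neg hX1 (by linarith)
  have hins : insert p A1 ⊆
      n.primeFactors.filter (fun r : ℕ => (p : ℝ) * (x : ℝ) ^ (-κ) < r) := by
    intro r hr
    rw [mem_insert] at hr
    rw [mem_filter]
    rcases hr with h | h
    · rw [h]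
      refine ⟨hpm, ?_⟩
      nlinarith
    · rw [hA1, mem_filter] at h
      exact ⟨h.1, h.2.2⟩
  have hpA : p ∉ A1 := by
    rw [hA1, mem_filter]
    rintro ⟨-, h, -⟩
    exact h rfl
  have hcA : A1.card ≤ j := by
    have h1 := card_le_card hins
    rw [card_insert_of_notMem hpA] at h1
    omega
  calc ∏ r ∈ A1, (r : ℝ) ≤ ∏ _r ∈ A1, (p : ℝ) := by
        apply Finset.prod_le_prod (fun _ _ => Nat.cast_nonneg _)
        intro r hr
        rw [hA1, mem_filter] at hr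
        exact_mod_cast hmax r (Nat.prime_of_mem_primeFactors hr.1)
          (Nat.dvd_of_mem_primeFactors hr.1)
    _ = (p : ℝ) ^ A1.card := by rw [Finset.prod_const]
    _ ≤ (p : ℝ) ^ j := pow_le_pow_right₀ hp1 hcA
    _ ≤ (x : ℝ) ^ (1 / 2 - κ) := by
        apply sqle _ (by positivity)
        rw [← pow_mul, ← Real.rpow_natCast ((x : ℝ) ^ (1 / 2 - κ)), ← Real.rpow_mul hXp.le,
          mul_comm j 2]
        refine hj.trans (le_of_eq ?_)
        congr 1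
        push_cast
        ring

open Classical in
/-- at most two prime factors near the largest one, if that is almost `x^(1/3)` -/
theorem cluster3 (η : ℝ) (hη : 0 < η) (hη1 : η ≤ 1 / 20) (x n p : ℕ) (hx : 2 ≤ x) (hL : LehP n)
    (hnx : n ≤ x) (hp1 : 1 < (p : ℝ)) (hpx : (x : ℝ) ^ (1 - η) < (p : ℝ) ^ 3)
    (hbig : 32768 * (1 + Real.log x) ^ 3 < (x : ℝ) ^ (1 / 5 : ℝ)) :
    (n.primeFactors.filter (fun r : ℕ => (p : ℝ) * (x : ℝ) ^ (-η) < r)).card ≤ 2 := by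
  have hX1 : (1 : ℝ) < (x : ℝ) := by exact_mod_cast hx
  have hX1' : (1 : ℝ) ≤ (x : ℝ) := hX1.le
  have hXp : (0 : ℝ) < (x : ℝ) := by linarith
  have hl0 : 0 ≤ Real.log (x : ℝ) := Real.log_nonneg hX1'
  have hn1 : 1 ≤ n := by have := hL.1; omega
  by_contra hlt
  push Not at hlt
  have hKc : 3 ≤ n.primeFactors.card := by
    have := card_filter_le n.primeFactors (fun r : ℕ => (p : ℝ) * (x : ℝ) ^ (-η) < r)
    omega
  obtain ⟨q, hqA, hqc⟩ := pick n.primeFactors 3 (by norm_num) hKc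
  have hqp : q.Prime := Nat.prime_of_mem_primeFactors hqA
  have hqn : q ∣ n := Nat.dvd_of_mem_primeFactors hqA
  obtain ⟨b, hb⟩ : ∃ b : ℝ, b = (p : ℝ) * (x : ℝ) ^ (-η) := ⟨_, rfl⟩
  have hb0 : 0 < b := by rw [hb]; positivity
  have hbq : b < (q : ℝ) := by
    by_contra hle
    push Not at hle
    have h1 : n.primeFactors.filter (fun r : ℕ => (p : ℝ) * (x : ℝ) ^ (-η) < r) ⊆
        (n.primeFactors.filter (fun r => q ≤ r)).erase q := by
      intro r hr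
      rw [mem_filter] at hr
      have h2 : (q : ℝ) < (r : ℝ) := lt_of_le_of_lt hle (by rw [hb]; exact hr.2)
      have h3 : q < r := by exact_mod_cast h2
      rw [mem_erase, mem_filter]
      exact ⟨by omega, hr.1, h3.le⟩
    have h2 := card_le_card h1
    rw [card_erase_of_mem (by rw [mem_filter]; exact ⟨hqA, le_rfl⟩), hqc] at h2
    omega
  obtain ⟨hsq, hodd, hco⟩ := lehP_basic hL
  obtain ⟨k, hk2, hk, -⟩ := lehP_k hL
  obtain ⟨R, hR⟩ : ∃ R : ℝ, R = 1 + 2 * Real.log (x : ℝ) := ⟨_, rfl⟩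
  have hR1 : 1 ≤ R := by linarith
  have hRn : (n.primeFactors.card : ℝ) ≤ R := by
    rw [hR]
    exact Pool.Agent.TH43.LK.omega_le hn1 hnx
  have hkey := DenseA.key (fam_lehP n k R hk2 hR1) (st_ofP hL hk hRn hqp hqn)
  have hmul : (seg n q : ℝ) * (upp n q : ℝ) = n := by
    exact_mod_cast seg_mul_upp' (s := q) hsq
  have hu2 : b ^ 3 ≤ (upp n q : ℝ) := by
    unfold upp
    push_cast
    calc b ^ 3 = ∏ _r ∈ n.primeFactors.filter (fun r => q ≤ r), b := by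
          rw [Finset.prod_const, hqc]
      _ ≤ ∏ r ∈ n.primeFactors.filter (fun r => q ≤ r), (r : ℝ) := by
          apply Finset.prod_le_prod (fun _ _ => hb0.le)
          intro r hr
          rw [mem_filter] at hr
          have : (q : ℝ) ≤ (r : ℝ) := by exact_mod_cast hr.2
          linarith
  have hnX : (n : ℝ) ≤ (x : ℝ) := by exact_mod_cast hnx
  have hs0 : (0 : ℝ) ≤ (seg n q : ℝ) := Nat.cast_nonneg _
  have h4 : b ^ 4 ≤ 16 * R * x := by
    calc b ^ 4 = b * b ^ 3 := by ring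
      _ ≤ (16 * R * seg n q) * upp n q :=
          mul_le_mul (hbq.le.trans hkey) hu2 (by positivity) (by positivity)
      _ = 16 * R * n := by rw [mul_assoc (16 * R), hmul]
      _ ≤ 16 * R * x := mul_le_mul_of_nonneg_left hnX (by linarith)
  have h5 : b ^ 12 ≤ (16 * R) ^ 3 * (x : ℝ) ^ 3 := by
    calc b ^ 12 = (b ^ 4) ^ 3 := by ring
      _ ≤ (16 * R * x) ^ 3 := pow_le_pow_left₀ (by positivity) h4 3
      _ = _ := by ring
  have h6 : (x : ℝ) ^ (4 - 16 * η) ≤ b ^ 12 := by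
    calc (x : ℝ) ^ (4 - 16 * η) = (x : ℝ) ^ (4 * (1 - η)) * (x : ℝ) ^ (-(12 * η)) :=
          (rq hXp (by ring)).symm
      _ = ((x : ℝ) ^ (1 - η)) ^ 4 * ((x : ℝ) ^ (-η)) ^ 12 := by
          rw [← Real.rpow_natCast ((x : ℝ) ^ (1 - η)), ← Real.rpow_natCast ((x : ℝ) ^ (-η)),
            ← Real.rpow_mul hXp.le, ← Real.rpow_mul hXp.le]
          congr 2 <;> push_cast <;> ring
      _ ≤ ((p : ℝ) ^ 3) ^ 4 * ((x : ℝ) ^ (-η)) ^ 12 := by
          apply mul_le_mul_of_nonneg_right _ (by positivity)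
          exact pow_le_pow_left₀ (by positivity) hpx.le 4
      _ = b ^ 12 := by rw [hb]; ring
  have h7 : (16 * R) ^ 3 ≤ 32768 * (1 + Real.log x) ^ 3 := by
    calc (16 * R) ^ 3 ≤ (32 * (1 + Real.log x)) ^ 3 := by
          apply pow_le_pow_left₀ (by positivity)
          rw [hR]
          linarith
      _ = _ := by ring
  have h8 : (x : ℝ) ^ (4 - 16 * η) < (x : ℝ) ^ (16 / 5 : ℝ) := by
    calc (x : ℝ) ^ (4 - 16 * η) ≤ (16 * R) ^ 3 * (x : ℝ) ^ 3 := h6.trans h5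
      _ ≤ (32768 * (1 + Real.log x) ^ 3) * (x : ℝ) ^ 3 :=
          mul_le_mul_of_nonneg_right h7 (by positivity)
      _ < (x : ℝ) ^ (1 / 5 : ℝ) * (x : ℝ) ^ 3 :=
          mul_lt_mul_of_pos_right hbig (by positivity)
      _ = (x : ℝ) ^ (16 / 5 : ℝ) := by
          rw [show (x : ℝ) ^ 3 = (x : ℝ) ^ (3 : ℝ) by norm_num,
            rq hXp (show (1 / 5 : ℝ) + 3 = 16 / 5 by norm_num)]
  have h9 := (Real.rpow_lt_rpow_left_iff hX1).1 h8
  linarith

open Classical in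
theorem struct (η : ℝ) (hη : 0 < η) (hη1 : η ≤ 1 / 20) (x n p : ℕ) (hx : 2 ≤ x) (hL : LehP n)
    (hnx : n ≤ x) (hnlo : (x : ℝ) ^ (1 - η / 8) ≤ n) (hp : p.Prime) (hpn : p ∣ n)
    (hmax : ∀ r : ℕ, r.Prime → r ∣ n → r ≤ p) (hplo : (x : ℝ) ^ (2 * η) ≤ p)
    (hbig : 32768 * (1 + Real.log x) ^ 3 < (x : ℝ) ^ (1 / 5 : ℝ))
    (hcond : ∀ t : ℕ, 2 ≤ t → (p : ℝ) ^ (2 * t + 1) ≤ (x : ℝ) ^ (1 - η) ∨
      (x : ℝ) ^ (1 + η) ≤ (p : ℝ) ^ (2 * t + 1) ∨
      (n.primeFactors.filter (fun r : ℕ => (p : ℝ) * (x : ℝ) ^ (-η) < r)).card ≤ t + 1) :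
    n ∈ QQ x (η ^ 2 / 16) ∪ WB x (η / 4) := by
  have hX1 : (1 : ℝ) < (x : ℝ) := by exact_mod_cast hx
  have hX1' : (1 : ℝ) ≤ (x : ℝ) := hX1.le
  have hXp : (0 : ℝ) < (x : ℝ) := by linarith
  have hn1 : 1 ≤ n := by have := hL.1; omega
  have hn0 : n ≠ 0 := by omega
  have hp1 : (1 : ℝ) < (p : ℝ) := by exact_mod_cast hp.one_lt
  have hp0 : (0 : ℝ) < (p : ℝ) := by linarith
  set κ : ℝ := η ^ 2 / 16 with hκ
  have hκ0 : 0 < κ := by positivity
  have hκη : κ ≤ η / 320 := by rw [hκ]; nlinarith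
  -- `m = m' + 1`
  have hex : ∃ m : ℕ, (x : ℝ) ≤ (p : ℝ) ^ (2 * m + 1) := by
    obtain ⟨k, hk⟩ := pow_unbounded_of_one_lt (x : ℝ) hp1
    exact ⟨k, hk.le.trans (pow_le_pow_right₀ hp1.le (by omega))⟩
  obtain ⟨m, hm, hmin⟩ : ∃ m : ℕ, (x : ℝ) ≤ (p : ℝ) ^ (2 * m + 1) ∧
      ∀ k < m, ¬ (x : ℝ) ≤ (p : ℝ) ^ (2 * k + 1) :=
    ⟨Nat.find hex, Nat.find_spec hex, fun k hk => Nat.find_min hex hk⟩
  have hlt1 : ∀ a : ℝ, a < 1 → (x : ℝ) ^ a < x := by
    intro a ha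
    calc (x : ℝ) ^ a < (x : ℝ) ^ (1 : ℝ) := Real.rpow_lt_rpow_of_exponent_lt hX1 ha
      _ = x := Real.rpow_one _
  -- `p` is at most about `x^(1/2)`
  have hpη : (p : ℝ) ≤ (x : ℝ) ^ (1 - η) := by
    obtain ⟨s, hs1, hns, -⟩ := lehP_pair hL hp hpn
    have hpn' : p ≤ n := Nat.le_of_dvd hn1 hpn
    have h1 : p * (p - 1) ≤ n + p := by
      rw [hns]
      exact Nat.mul_le_mul_left _ (Nat.le_mul_of_pos_left _ hs1)
    have h2 : p * p ≤ 3 * x := by
      obtain ⟨r, rfl⟩ : ∃ r, p = r + 1 := ⟨p - 1, by have := hp.two_le; omega⟩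
      rw [Nat.add_sub_cancel] at h1
      nlinarith
    have h3 : (p : ℝ) ^ 2 ≤ 3 * x := by
      rw [pow_two]
      exact_mod_cast h2
    have hl0 : 0 ≤ Real.log (x : ℝ) := Real.log_nonneg hX1'
    have h4 : (3 : ℝ) ≤ (x : ℝ) ^ (1 / 5 : ℝ) := by
      have : (1 : ℝ) ≤ (1 + Real.log x) ^ 3 := one_le_pow₀ (by linarith)
      linarith
    apply sqle _ (by positivity)
    rw [← Real.rpow_natCast ((x : ℝ) ^ (1 - η)), ← Real.rpow_mul hXp.le]
    calc (p : ℝ) ^ 2 ≤ 3 * x := h3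
      _ ≤ (x : ℝ) ^ (1 / 5 : ℝ) * x := mul_le_mul_of_nonneg_right h4 hXp.le
      _ = (x : ℝ) ^ (1 / 5 : ℝ) * (x : ℝ) ^ (1 : ℝ) := by rw [Real.rpow_one]
      _ = (x : ℝ) ^ (6 / 5 : ℝ) := rq hXp (by norm_num)
      _ ≤ _ := by
          apply Real.rpow_le_rpow_of_exponent_le hX1'
          push_cast
          linarith
  have hm1 : 1 ≤ m := by
    by_contra hlt
    have h0 : m = 0 := by omega
    rw [h0, Nat.mul_zero, Nat.zero_add, pow_one] at hm
    have h2 := hlt1 (1 - η) (by linarith)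
    linarith
  obtain ⟨m', rfl⟩ : ∃ m', m = m' + 1 := ⟨m - 1, by omega⟩
  have hm' : (p : ℝ) ^ (2 * m' + 1) < x := not_le.1 (hmin m' (by omega))
  have hp25 : (p : ℝ) ^ 3 < (x : ℝ) ^ (1 + η) → (p : ℝ) ≤ (x : ℝ) ^ (2 / 5 : ℝ) := by
    intro h
    have h1 : (p : ℝ) ^ 3 ≤ ((x : ℝ) ^ (2 / 5 : ℝ)) ^ 3 := by
      rw [← Real.rpow_natCast ((x : ℝ) ^ (2 / 5 : ℝ)), ← Real.rpow_mul hXp.le]
      refine h.le.trans ?_
      apply Real.rpow_le_rpow_of_exponent_le hX1'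
      push_cast
      linarith
    exact le_of_pow_le_pow_left₀ (by norm_num) (by positivity) h1
  have hxη : (x : ℝ) ≤ (x : ℝ) ^ (1 + η) := by
    calc (x : ℝ) = (x : ℝ) ^ (1 : ℝ) := (Real.rpow_one _).symm
      _ ≤ _ := Real.rpow_le_rpow_of_exponent_le hX1' (by linarith)
  have hp3 : 1 ≤ m' → (p : ℝ) ≤ (x : ℝ) ^ (2 / 5 : ℝ) := by
    intro h
    apply hp25
    have h1 : (p : ℝ) ^ 3 ≤ (p : ℝ) ^ (2 * m' + 1) := pow_le_pow_right₀ hp1.le (by omega)
    linarith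
  -- the bound on `m'`
  have hmη : 2 * η * (2 * m' + 1) < 1 := by
    have h1 : (x : ℝ) ^ (2 * η * (2 * m' + 1)) < (x : ℝ) ^ (1 : ℝ) := by
      rw [Real.rpow_one]
      refine lt_of_le_of_lt ?_ hm'
      have h2 : (x : ℝ) ^ (2 * η * (2 * m' + 1)) = ((x : ℝ) ^ (2 * η)) ^ (2 * m' + 1) := by
        rw [← Real.rpow_natCast, ← Real.rpow_mul hXp.le]
        push_cast
        ring_nf
      rw [h2]
      exact pow_le_pow_left₀ (by positivity) hplo _
    exact (Real.rpow_lt_rpow_left_iff hX1).1 h1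
  have hcl : (n.primeFactors.filter (fun r : ℕ => (p : ℝ) * (x : ℝ) ^ (-κ) < r)).card ≤
      (n.primeFactors.filter (fun r : ℕ => (p : ℝ) * (x : ℝ) ^ (-η) < r)).card := by
    apply card_le_card
    intro r hr
    rw [mem_filter] at hr ⊢
    refine ⟨hr.1, lt_of_le_of_lt ?_ hr.2⟩
    apply mul_le_mul_of_nonneg_left _ hp0.le
    exact Real.rpow_le_rpow_of_exponent_le hX1' (by linarith)
  have hpκ : (x : ℝ) ^ κ ≤ p :=
    (Real.rpow_le_rpow_of_exponent_le hX1' (by linarith)).trans hplo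
  -- the power `p ^ (2 m')`
  have hj1 : (p : ℝ) ^ (2 * m') ≤ (x : ℝ) ^ (1 - 2 * κ) := by
    have h1 : (p : ℝ) ^ (2 * m') * (x : ℝ) ^ (2 * η) ≤ x := by
      calc (p : ℝ) ^ (2 * m') * (x : ℝ) ^ (2 * η) ≤ (p : ℝ) ^ (2 * m') * p :=
            mul_le_mul_of_nonneg_left hplo (by positivity)
        _ = (p : ℝ) ^ (2 * m' + 1) := (pow_succ _ _).symm
        _ ≤ x := hm'.le
    have h2 : (p : ℝ) ^ (2 * m') * (x : ℝ) ^ (2 * η) ≤ (x : ℝ) ^ (1 - 2 * η) * (x : ℝ) ^ (2 * η) := by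
      rw [rq hXp (show 1 - 2 * η + 2 * η = 1 by ring), Real.rpow_one]
      exact h1
    have h3 := le_of_mul_le_mul_right h2 (by positivity)
    exact h3.trans (Real.rpow_le_rpow_of_exponent_le hX1' (by linarith))
  -- the condition for `m' + 1`
  have hj2 : (p : ℝ) ^ (2 * (m' + 1) + 1) < (x : ℝ) ^ (1 + η) →
      (p : ℝ) ^ (2 * (m' + 1)) ≤ (x : ℝ) ^ (1 - 2 * κ) := by
    intro h
    have h2 : (p : ℝ) ^ (2 * (m' + 1)) * (x : ℝ) ^ (2 * η) ≤
        (x : ℝ) ^ (1 - η) * (x : ℝ) ^ (2 * η) := by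
      rw [rq hXp (show 1 - η + 2 * η = 1 + η by ring)]
      calc (p : ℝ) ^ (2 * (m' + 1)) * (x : ℝ) ^ (2 * η) ≤ (p : ℝ) ^ (2 * (m' + 1)) * p :=
            mul_le_mul_of_nonneg_left hplo (by positivity)
        _ = (p : ℝ) ^ (2 * (m' + 1) + 1) := (pow_succ _ _).symm
        _ ≤ _ := h.le
    have h3 := le_of_mul_le_mul_right h2 (by positivity)
    exact h3.trans (Real.rpow_le_rpow_of_exponent_le hX1' (by linarith))
  have hH2 : n ∈ QQ x κ ∨ (x : ℝ) ^ (1 + η) ≤ (p : ℝ) ^ (2 * (m' + 1) + 1) := by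
    rcases le_or_gt ((x : ℝ) ^ (1 + η)) ((p : ℝ) ^ (2 * (m' + 1) + 1)) with h | h
    · exact Or.inr h
    · left
      have h30 : (p : ℝ) ≤ (x : ℝ) ^ (2 / 5 : ℝ) := by
        apply hp25
        refine lt_of_le_of_lt (pow_le_pow_right₀ hp1.le (by omega)) h
      have hc2 : (n.primeFactors.filter (fun r : ℕ => (p : ℝ) * (x : ℝ) ^ (-η) < r)).card ≤
          (m' + 1) + 1 := by
        rcases Nat.eq_zero_or_pos m' with h0 | h0
        · have h1 := cluster3 η hη hη1 x n p hx hL hnx hp1 (by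
            rw [h0] at hm
            refine lt_of_lt_of_le (hlt1 (1 - η) (by linarith)) ?_
            exact hm) hbig
          omega
        · rcases hcond (m' + 1) (by omega) with h1 | h1 | h1
          · exfalso
            have := hlt1 (1 - η) (by linarith)
            linarith
          · exfalso
            linarith
          · exact h1
      exact in_QQ κ hκ0 x n p (m' + 1) hx hL hnx hp hpn hmax hpκ h30 (hcl.trans hc2) (hj2 h)
  have hH1 : n ∈ QQ x κ ∨ (p : ℝ) ^ (2 * m' + 1) ≤ (x : ℝ) ^ (1 - η) := by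
    rcases le_or_gt ((p : ℝ) ^ (2 * m' + 1)) ((x : ℝ) ^ (1 - η)) with h | h
    · exact Or.inr h
    · left
      have h0 : 1 ≤ m' := by
        by_contra h0
        have h1 : m' = 0 := by omega
        rw [h1] at h
        norm_num at h
        linarith
      have hc2 : (n.primeFactors.filter (fun r : ℕ => (p : ℝ) * (x : ℝ) ^ (-η) < r)).card ≤
          m' + 1 := by
        rcases h0.eq_or_lt with h2 | h2
        · have h1 := cluster3 η hη hη1 x n p hx hL hnx hp1 (by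
            rw [← h2] at h
            exact h) hbig
          omega
        · rcases hcond m' (by omega) with h1 | h1 | h1
          · exfalso
            linarith
          · exfalso
            linarith
          · exact h1
      exact in_QQ κ hκ0 x n p m' hx hL hnx hp hpn hmax hpκ (hp3 h0) (hcl.trans hc2) hj1
  rw [mem_union]
  rcases hH2 with hH2 | hH2
  · exact Or.inl hH2
  rcases hH1 with hH1 | hH1
  · exact Or.inl hH1
  rcases Nat.lt_or_ge m' (n.primeFactors.filter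
      (fun r : ℕ => (p : ℝ) * (x : ℝ) ^ (-κ) < r)).card with hK | hK
  swap
  · left
    have hpm : p ∈ n.primeFactors.filter (fun r : ℕ => (p : ℝ) * (x : ℝ) ^ (-κ) < r) := by
      rw [mem_filter]
      refine ⟨Nat.mem_primeFactors.2 ⟨hp, hpn, hn0⟩, ?_⟩
      have : (x : ℝ) ^ (-κ) < 1 := Real.rpow_lt_one_of_one_lt_of_neg hX1 (by linarith)
      nlinarith
    have hpos : 0 < (n.primeFactors.filter (fun r : ℕ => (p : ℝ) * (x : ℝ) ^ (-κ) < r)).card :=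
      card_pos.2 ⟨p, hpm⟩
    exact in_QQ κ hκ0 x n p m' hx hL hnx hp hpn hmax hpκ (hp3 (by omega)) (by omega) hj1
  right
  -- the `m`-th largest prime
  have hKc : m' + 1 ≤ n.primeFactors.card := le_trans hK (card_filter_le _ _)
  obtain ⟨q, hqA, hqc⟩ := pick n.primeFactors (m' + 1) (by omega) hKc
  have hqp : q.Prime := Nat.prime_of_mem_primeFactors hqA
  have hqn : q ∣ n := Nat.dvd_of_mem_primeFactors hqA
  obtain ⟨b, hb⟩ : ∃ b : ℝ, b = (p : ℝ) * (x : ℝ) ^ (-κ) := ⟨_, rfl⟩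
  have hb0 : 0 < b := by rw [hb]; positivity
  have hbq : b < (q : ℝ) := by
    by_contra hle
    push Not at hle
    have h1 : n.primeFactors.filter (fun r : ℕ => (p : ℝ) * (x : ℝ) ^ (-κ) < r) ⊆
        (n.primeFactors.filter (fun r => q ≤ r)).erase q := by
      intro r hr
      rw [mem_filter] at hr
      have h2 : (q : ℝ) < (r : ℝ) := lt_of_le_of_lt hle (by rw [hb]; exact hr.2)
      have h3 : q < r := by exact_mod_cast h2
      rw [mem_erase, mem_filter]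
      exact ⟨by omega, hr.1, h3.le⟩
    have h2 := card_le_card h1
    rw [card_erase_of_mem (by rw [mem_filter]; exact ⟨hqA, le_rfl⟩), hqc] at h2
    omega
  obtain ⟨hsq, hodd, hco⟩ := lehP_basic hL
  have hmul : (seg n q : ℝ) * (upp n q : ℝ) = n := by
    exact_mod_cast seg_mul_upp' (s := q) hsq
  have hu1 : (upp n q : ℝ) ≤ (p : ℝ) ^ (m' + 1) := by
    unfold upp
    push_cast
    calc ∏ r ∈ n.primeFactors.filter (fun r => q ≤ r), (r : ℝ) ≤
        ∏ _r ∈ n.primeFactors.filter (fun r => q ≤ r), (p : ℝ) := by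
          apply Finset.prod_le_prod (fun _ _ => Nat.cast_nonneg _)
          intro r hr
          rw [mem_filter] at hr
          exact_mod_cast hmax r (Nat.prime_of_mem_primeFactors hr.1)
            (Nat.dvd_of_mem_primeFactors hr.1)
      _ = (p : ℝ) ^ (m' + 1) := by rw [Finset.prod_const, hqc]
  have hu2 : b ^ (m' + 1) ≤ (upp n q : ℝ) := by
    unfold upp
    push_cast
    calc b ^ (m' + 1) = ∏ _r ∈ n.primeFactors.filter (fun r => q ≤ r), b := by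
          rw [Finset.prod_const, hqc]
      _ ≤ ∏ r ∈ n.primeFactors.filter (fun r => q ≤ r), (r : ℝ) := by
          apply Finset.prod_le_prod (fun _ _ => hb0.le)
          intro r hr
          rw [mem_filter] at hr
          have : (q : ℝ) ≤ (r : ℝ) := by exact_mod_cast hr.2
          linarith
  obtain ⟨f, hf⟩ : ∃ f : ℝ, f = (seg n q : ℝ) := ⟨_, rfl⟩
  have hf0 : 0 ≤ f := by rw [hf]; exact Nat.cast_nonneg _
  rw [← hf] at hmul
  have hnX : (n : ℝ) ≤ (x : ℝ) := by exact_mod_cast hnx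
  have hq0 : (0 : ℝ) < (q : ℝ) := by exact_mod_cast hqp.pos
  -- the two inequalities
  have g1 : f ^ 2 ≤ (x : ℝ) ^ (1 - 2 * (η / 4)) * q := by
    have a1 : f * b ^ (m' + 1) ≤ x :=
      (mul_le_mul_of_nonneg_left hu2 hf0).trans (by linarith)
    have a2 : (f * b ^ (m' + 1)) ^ 2 ≤ (x : ℝ) ^ 2 := pow_le_pow_left₀ (by positivity) a1 2
    have a3 : f ^ 2 * b ^ (2 * (m' + 1) + 1) ≤ (x : ℝ) ^ 2 * q := by
      calc f ^ 2 * b ^ (2 * (m' + 1) + 1) = (f * b ^ (m' + 1)) ^ 2 * b := by ring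
        _ ≤ (x : ℝ) ^ 2 * q := mul_le_mul a2 hbq.le hb0.le (by positivity)
    have a4 : (x : ℝ) ^ (1 + η / 2) ≤ b ^ (2 * (m' + 1) + 1) := by
      have e1 : b ^ (2 * (m' + 1) + 1) =
          (p : ℝ) ^ (2 * (m' + 1) + 1) * (x : ℝ) ^ (-κ * (2 * (m' + 1) + 1)) := by
        rw [hb, mul_pow]
        congr 1
        rw [← Real.rpow_natCast, ← Real.rpow_mul hXp.le]
        push_cast
        ring_nf
      rw [e1]
      calc (x : ℝ) ^ (1 + η / 2) ≤ (x : ℝ) ^ ((1 + η) + (-κ * (2 * (m' + 1) + 1))) := by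
            apply Real.rpow_le_rpow_of_exponent_le hX1'
            have e2 : κ * (2 * (m' + 1) + 1) ≤ η / 2 := by
              rw [hκ]
              nlinarith
            linarith
        _ = (x : ℝ) ^ (1 + η) * (x : ℝ) ^ (-κ * (2 * (m' + 1) + 1)) := (rq hXp rfl).symm
        _ ≤ _ := mul_le_mul_of_nonneg_right hH2 (by positivity)
    have a5 : f ^ 2 * (x : ℝ) ^ (1 + η / 2) ≤
        ((x : ℝ) ^ (1 - 2 * (η / 4)) * q) * (x : ℝ) ^ (1 + η / 2) := by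
      calc f ^ 2 * (x : ℝ) ^ (1 + η / 2) ≤ f ^ 2 * b ^ (2 * (m' + 1) + 1) :=
            mul_le_mul_of_nonneg_left a4 (by positivity)
        _ ≤ (x : ℝ) ^ 2 * q := a3
        _ = ((x : ℝ) ^ (1 - 2 * (η / 4)) * (x : ℝ) ^ (1 + η / 2)) * q := by
            rw [rq hXp (show 1 - 2 * (η / 4) + (1 + η / 2) = 2 by ring)]
            norm_num
        _ = _ := by ring
    exact le_of_mul_le_mul_right a5 (by positivity)
  have g2 : (x : ℝ) ^ 2 ≤ f ^ 2 * ((x : ℝ) ^ (1 - 2 * (η / 4)) * q) := by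
    obtain ⟨g, hg⟩ : ∃ g : ℝ, g = f ^ 2 * ((x : ℝ) ^ (1 - 2 * (η / 4)) * q) := ⟨_, rfl⟩
    have hg0 : 0 ≤ g := by rw [hg]; positivity
    rw [← hg]
    have a1 : (x : ℝ) ^ (1 - η / 8) ≤ f * (p : ℝ) ^ (m' + 1) := by
      refine hnlo.trans ?_
      rw [← hmul]
      exact mul_le_mul_of_nonneg_left hu1 hf0
    have a2 : (x : ℝ) ^ (2 - η / 4) ≤ f ^ 2 * (p : ℝ) ^ (2 * m' + 1) * p := by
      have e1 := pow_le_pow_left₀ (by positivity) a1 2
      have e2 : ((x : ℝ) ^ (1 - η / 8)) ^ 2 = (x : ℝ) ^ (2 - η / 4) := by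
        rw [← Real.rpow_natCast, ← Real.rpow_mul hXp.le]
        congr 1
        push_cast
        ring
      rw [e2] at e1
      refine e1.trans (le_of_eq ?_)
      ring
    have a3 : (x : ℝ) ^ (2 - η / 4) * ((x : ℝ) ^ (1 - 2 * (η / 4)) * b) ≤
        g * (p : ℝ) ^ (2 * m' + 1) * p := by
      calc (x : ℝ) ^ (2 - η / 4) * ((x : ℝ) ^ (1 - 2 * (η / 4)) * b) ≤
          (f ^ 2 * (p : ℝ) ^ (2 * m' + 1) * p) * ((x : ℝ) ^ (1 - 2 * (η / 4)) * q) := by
            apply mul_le_mul a2 _ (by positivity) (by positivity)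
            exact mul_le_mul_of_nonneg_left hbq.le (by positivity)
        _ = _ := by rw [hg]; ring
    have a4 : (x : ℝ) ^ (2 - η / 4) * ((x : ℝ) ^ (1 - 2 * (η / 4)) * b) =
        (x : ℝ) ^ (3 - 3 * η / 4 - κ) * p := by
      rw [hb]
      calc (x : ℝ) ^ (2 - η / 4) * ((x : ℝ) ^ (1 - 2 * (η / 4)) * (p * (x : ℝ) ^ (-κ))) =
          (x : ℝ) ^ (2 - η / 4) * (x : ℝ) ^ (1 - 2 * (η / 4)) * (x : ℝ) ^ (-κ) * p := by ring
        _ = _ := by
            rw [rq hXp (show 2 - η / 4 + (1 - 2 * (η / 4)) = 3 - 3 * η / 4 by ring),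
              rq hXp (show 3 - 3 * η / 4 + -κ = 3 - 3 * η / 4 - κ by ring)]
    rw [a4] at a3
    have a5 : (x : ℝ) ^ (3 - 3 * η / 4 - κ) ≤ g * (p : ℝ) ^ (2 * m' + 1) :=
      le_of_mul_le_mul_right a3 hp0
    have a6 : (x : ℝ) ^ (3 - 3 * η / 4 - κ) ≤ g * (x : ℝ) ^ (1 - η) :=
      a5.trans (mul_le_mul_of_nonneg_left hH1 hg0)
    have a7 : (x : ℝ) ^ 2 * (x : ℝ) ^ (1 - η) ≤ g * (x : ℝ) ^ (1 - η) := by
      refine le_trans ?_ a6
      have e1 : (x : ℝ) ^ 2 = (x : ℝ) ^ (2 : ℝ) := by norm_num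
      rw [e1, rq hXp (show 2 + (1 - η) = 3 - η by ring)]
      exact Real.rpow_le_rpow_of_exponent_le hX1' (by linarith)
    exact le_of_mul_le_mul_right a7 (by positivity)
  unfold WB
  rw [mem_filter, mem_Icc]
  exact ⟨⟨hn1, hnx⟩, hL, q, hqp, hqn, by rw [← hf]; exact g1, by rw [← hf]; exact g2⟩

end Pool.Agent.TH43.PL
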