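import Pool.Agent.TH43.PL.Sp
import Pool.Agent.TH43.PL.Ar
import Pool.Agent.TH43.PL.Aux0
import Pool.Agent.TH43.PL.Light

/-!
# Solutions of `φ(n) ∣ n + 1` with an initial segment near the square root, uniform version
-/

set_option autoImplicit false

namespace Pool.Agent.TH43.PL

open Finset Pool.Agent.H95R2.Leh Pool.Agent.TH836.Leh

open Classical in
/-- Lehmer numbers up to `x` with an initial segment `f = seg n q` such that
`Δ (x/q)^(1/2) ≤ f ≤ (x q)^(1/2) / Δ` -/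
noncomputable def WU (x : ℕ) (Δ : ℝ) : Finset ℕ :=
  (Icc 1 x).filter (fun n : ℕ => LehP n ∧ ∃ q : ℕ, q.Prime ∧ q ∣ n ∧
    (seg n q : ℝ) ^ 2 ≤ (x : ℝ) / Δ ^ 2 * q ∧
    (x : ℝ) ^ 2 ≤ (seg n q : ℝ) ^ 2 * ((x : ℝ) / Δ ^ 2 * q))

open Classical in
/-- one block -/
noncomputable def WSU (x : ℕ) (Δ : ℝ) (i j : ℕ) : Finset ℕ :=
  (Icc 1 x).filter (fun n : ℕ => LehP n ∧ ∃ q : ℕ, q.Prime ∧ q ∣ n ∧
    (seg n q : ℝ) ^ 2 ≤ (x : ℝ) / Δ ^ 2 * q ∧
    (x : ℝ) ^ 2 ≤ (seg n q : ℝ) ^ 2 * ((x : ℝ) / Δ ^ 2 * q) ∧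
    2 ^ i ≤ q ∧ q < 2 ^ (i + 1) ∧ 2 ^ j ≤ seg n q ∧ seg n q < 2 ^ (j + 1))

theorem winu_block (s : ℝ) (hs : 0 < s) : ∃ C : ℝ, 0 < C ∧
    ∀ (x i j : ℕ) (Δ : ℝ), 1 ≤ x → 3 ≤ Δ →
      ((WSU x Δ i j).card : ℝ) ≤
        C * (1 + Real.log x) ^ 3 * (x : ℝ) ^ s * (Real.sqrt x / Δ) := by
  classical
  obtain ⟨A, hA, hmod⟩ := Pool.Agent.TH43.LK.modulus_lower
  obtain ⟨C1, hC1, hsparse⟩ := sparse s hs
  refine ⟨C1 * (11 * A), by positivity, ?_⟩
  intro x i j Δ hxn hΔ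
  have hX1' : (1 : ℝ) ≤ (x : ℝ) := by exact_mod_cast hxn
  have hXp : (0 : ℝ) < (x : ℝ) := by linarith
  have hΔ0 : 0 < Δ := by linarith
  have hl0 : 0 ≤ Real.log (x : ℝ) := Real.log_nonneg hX1'
  rcases (WSU x Δ i j).eq_empty_or_nonempty with he | hne
  · rw [he]
    simp only [card_empty, Nat.cast_zero]
    positivity
  obtain ⟨F, hF⟩ : ∃ F : ℝ, F = 2 ^ (j + 1) := ⟨_, rfl⟩
  obtain ⟨P, hP⟩ : ∃ P : ℝ, P = 2 ^ i := ⟨_, rfl⟩
  obtain ⟨w, hw⟩ : ∃ w : ℝ, w = Real.sqrt x / Δ := ⟨_, rfl⟩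
  obtain ⟨v, hv⟩ : ∃ v : ℝ, v = Real.sqrt P := ⟨_, rfl⟩
  have hF2 : 2 ≤ F := by
    rw [hF, pow_succ]
    have : (1 : ℝ) ≤ 2 ^ j := one_le_pow₀ (by norm_num)
    linarith
  have hP1 : 1 ≤ P := by rw [hP]; exact one_le_pow₀ (by norm_num)
  have hsx : 0 < Real.sqrt (x : ℝ) := Real.sqrt_pos.2 hXp
  have hw0 : 0 < w := by rw [hw]; positivity
  have hv0 : 0 < v := by rw [hv]; exact Real.sqrt_pos.2 (by linarith)
  have hv2 : v ^ 2 = P := by rw [hv]; exact Real.sq_sqrt (by linarith)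
  have hw2 : w ^ 2 = (x : ℝ) / Δ ^ 2 := by
    rw [hw, div_pow, Real.sq_sqrt hXp.le]
  have hF0 : 0 < F := by linarith
  -- the inequalities, from one element
  obtain ⟨ineq1, ineq2, ineq3⟩ : F ≤ 3 * (w * v) ∧ (x : ℝ) ≤ 2 * (F * (w * v)) ∧ P ≤ x := by
    obtain ⟨n, hn⟩ := hne
    unfold WSU at hn
    rw [mem_filter, mem_Icc] at hn
    obtain ⟨⟨hn1, hnx⟩, hL, q, hq, hqn, h1, h2, h3, h4, h5, h6⟩ := hn
    have h3' : P ≤ (q : ℝ) := by rw [hP]; exact_mod_cast h3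
    have h4' : (q : ℝ) ≤ 2 * P := by
      have h7 : (q : ℝ) < 2 ^ (i + 1) := by exact_mod_cast h4
      rw [pow_succ] at h7
      rw [hP]
      linarith
    have h5' : F / 2 ≤ (seg n q : ℝ) := by
      have h7 : (2 : ℝ) ^ j ≤ (seg n q : ℝ) := by exact_mod_cast h5
      rw [hF, pow_succ]
      linarith
    have h6' : (seg n q : ℝ) ≤ F := by
      have h7 : (seg n q : ℝ) < 2 ^ (j + 1) := by exact_mod_cast h6
      rw [hF]
      exact h7.le
    have hs0 : (0 : ℝ) ≤ (seg n q : ℝ) := Nat.cast_nonneg _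
    rw [← hw2] at h1 h2
    refine ⟨?_, ?_, ?_⟩
    · have h7 : F ^ 2 ≤ (3 * (w * v)) ^ 2 := by
        have e1 : (F / 2) ^ 2 ≤ (seg n q : ℝ) ^ 2 := pow_le_pow_left₀ (by linarith) h5' 2
        have e2 : w ^ 2 * (q : ℝ) ≤ w ^ 2 * (2 * P) :=
          mul_le_mul_of_nonneg_left h4' (by positivity)
        have e3 : 0 ≤ w ^ 2 * v ^ 2 := by positivity
        calc F ^ 2 = 4 * (F / 2) ^ 2 := by ring
          _ ≤ 4 * (w ^ 2 * (2 * P)) := by linarith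
          _ = 8 * (w ^ 2 * v ^ 2) := by rw [hv2]; ring
          _ ≤ 9 * (w ^ 2 * v ^ 2) := by linarith
          _ = (3 * (w * v)) ^ 2 := by ring
      exact sqle h7 (by positivity)
    · have h7 : (x : ℝ) ^ 2 ≤ (2 * (F * (w * v))) ^ 2 := by
        have e1 : (seg n q : ℝ) ^ 2 ≤ F ^ 2 := pow_le_pow_left₀ hs0 h6' 2
        have e2 : w ^ 2 * (q : ℝ) ≤ w ^ 2 * (2 * P) :=
          mul_le_mul_of_nonneg_left h4' (by positivity)
        have e3 : 0 ≤ F ^ 2 * (w ^ 2 * v ^ 2) := by positivity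
        calc (x : ℝ) ^ 2 ≤ (seg n q : ℝ) ^ 2 * (w ^ 2 * q) := h2
          _ ≤ F ^ 2 * (w ^ 2 * (2 * P)) := mul_le_mul e1 e2 (by positivity) (by positivity)
          _ = 2 * (F ^ 2 * (w ^ 2 * v ^ 2)) := by rw [hv2]; ring
          _ ≤ 4 * (F ^ 2 * (w ^ 2 * v ^ 2)) := by linarith
          _ = (2 * (F * (w * v))) ^ 2 := by ring
      exact sqle h7 (by positivity)
    · have h7 : q ≤ x := (Nat.le_of_dvd hn1 hqn).trans hnx
      have h8 : (q : ℝ) ≤ (x : ℝ) := by exact_mod_cast h7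
      linarith
  have hFx : F ≤ x := by
    have h7 : F ^ 2 ≤ (x : ℝ) ^ 2 := by
      have e1 := pow_le_pow_left₀ hF0.le ineq1 2
      have e2 : (3 * (w * v)) ^ 2 = 9 * ((x : ℝ) / Δ ^ 2 * P) := by
        rw [← hw2, ← hv2]
        ring
      rw [e2] at e1
      have e3 : (x : ℝ) / Δ ^ 2 * P ≤ (x : ℝ) / Δ ^ 2 * x :=
        mul_le_mul_of_nonneg_left ineq3 (by positivity)
      have e4 : 9 * ((x : ℝ) / Δ ^ 2 * x) ≤ (x : ℝ) ^ 2 := by
        have e5 : (9 : ℝ) ≤ Δ ^ 2 := by nlinarith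
        have e6 : 9 * ((x : ℝ) / Δ ^ 2 * x) = (x : ℝ) ^ 2 * (9 / Δ ^ 2) := by ring
        rw [e6]
        apply mul_le_of_le_one_right (by positivity)
        rw [div_le_one (by positivity)]
        exact e5
      linarith
    exact sqle h7 hXp.le
  -- the divisors
  set E : Finset ℕ := (Icc 1 ⌊F⌋₊).filter (fun f : ℕ => (F / 2 ≤ (f : ℝ) ∧
    Nat.Coprime f f.totient) ∧ ∃ n q : ℕ, LehP n ∧ n ≤ x ∧ q.Prime ∧ q ∣ n ∧ P ≤ q ∧
    seg n q ∣ f) with hE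
  have hEcard : (E.card : ℝ) ≤ C1 * (x : ℝ) ^ s * F * v⁻¹ := by
    have h1 := hsparse x F P hxn (by linarith) hFx hP1
    have h2 : P ^ (-(1 / 2) : ℝ) = v⁻¹ := by
      rw [hv, Real.sqrt_eq_rpow, ← Real.rpow_neg (by linarith)]
    rw [h2] at h1
    refine le_trans ?_ h1
    apply Nat.cast_le.2
    apply card_le_card
    intro f hf
    rw [hE, mem_filter] at hf
    rw [mem_filter]
    exact ⟨hf.1, hf.2.2⟩
  set L : ℝ := 1 + Real.log (x : ℝ) with hL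
  have hL1 : 1 ≤ L := by linarith
  have hL3 : 1 ≤ L ^ 3 := one_le_pow₀ hL1
  have hone : ∀ f ∈ E, (((Icc 1 x).filter (fun n => f ∣ n ∧ f.totient ∣ n + 1)).card : ℝ) ≤
      4 * (A * L ^ 3) * ((x : ℝ) / F ^ 2) + 1 := by
    intro f hf
    rw [hE, mem_filter, mem_Icc] at hf
    obtain ⟨⟨hf1, hf2⟩, ⟨hf3, hco⟩, -⟩ := hf
    have hfF : (f : ℝ) ≤ F := (Nat.cast_le.2 hf2).trans (Nat.floor_le hF0.le)
    have hfx : f ≤ x := by
      have : (f : ℝ) ≤ (x : ℝ) := hfF.trans hFx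
      exact Nat.cast_le.1 this
    refine (class_card x f hf1 hco).trans ?_
    have hphi : 0 < f.totient := Nat.totient_pos.2 hf1
    have hqr : (0 : ℝ) < ((f * f.totient : ℕ) : ℝ) := by exact_mod_cast Nat.mul_pos hf1 hphi
    have h1 := hmod x f (F / 2) hf1 hfx (by linarith) (by
      refine lt_of_lt_of_le ?_ hf3
      rw [div_lt_iff₀ (by positivity)]
      nlinarith)
    have h2 : (x : ℝ) / ((f * f.totient : ℕ) : ℝ) ≤ 4 * (A * L ^ 3) * ((x : ℝ) / F ^ 2) := by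
      rw [div_le_iff₀ hqr]
      calc (x : ℝ) = (x : ℝ) / F ^ 2 * (4 * (F / 2) ^ 2) := by
            field_simp
            ring
        _ ≤ (x : ℝ) / F ^ 2 * (4 * (A * L ^ 3 * ((f * f.totient : ℕ) : ℝ))) := by
            apply mul_le_mul_of_nonneg_left _ (by positivity)
            linarith
        _ = _ := by ring
    linarith
  have hsub : WSU x Δ i j ⊆ E.biUnion
      (fun f => (Icc 1 x).filter (fun n => f ∣ n ∧ f.totient ∣ n + 1)) := by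
    intro n hn
    unfold WSU at hn
    rw [mem_filter, mem_Icc] at hn
    obtain ⟨⟨hn1, hnx⟩, hLn, q, hq, hqn, h1, h2, h3, h4, h5, h6⟩ := hn
    obtain ⟨hsq, hodd, hco⟩ := lehP_basic hLn
    have hsn : seg n q ∣ n := seg_dvd n q
    have hs0 : 1 ≤ seg n q := Nat.pos_of_dvd_of_pos hsn hn1
    rw [mem_biUnion]
    refine ⟨seg n q, ?_, ?_⟩
    · rw [hE, mem_filter, mem_Icc]
      have h7 : (seg n q : ℝ) < 2 ^ (j + 1) := by exact_mod_cast h6
      have h8 : (2 : ℝ) ^ j ≤ (seg n q : ℝ) := by exact_mod_cast h5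
      refine ⟨⟨hs0, Nat.le_floor (by rw [hF]; exact h7.le)⟩, ⟨?_, ?_⟩, n, q, hLn, hnx, hq, hqn,
        ?_, dvd_rfl⟩
      · rw [hF, pow_succ]
        linarith
      · exact (hco.coprime_dvd_left hsn).coprime_dvd_right (Nat.totient_dvd_of_dvd hsn)
      · rw [hP]
        exact_mod_cast h3
    · rw [mem_filter, mem_Icc]
      exact ⟨⟨hn1, hnx⟩, hsn, (Nat.totient_dvd_of_dvd hsn).trans hLn.2⟩
  have hc1' : ((WSU x Δ i j).card : ℝ) ≤
      ∑ f ∈ E, (((Icc 1 x).filter (fun n => f ∣ n ∧ f.totient ∣ n + 1)).card : ℝ) := by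
    exact_mod_cast (card_le_card hsub).trans card_biUnion_le
  refine hc1'.trans ((sum_le_sum hone).trans ?_)
  rw [sum_const, nsmul_eq_mul]
  have hb : (E.card : ℝ) * (4 * (A * L ^ 3) * ((x : ℝ) / F ^ 2) + 1) ≤
      C1 * (x : ℝ) ^ s * F * v⁻¹ * (4 * (A * L ^ 3) * ((x : ℝ) / F ^ 2) + 1) :=
    mul_le_mul_of_nonneg_right hEcard (by positivity)
  refine hb.trans ?_
  have e1 : C1 * (x : ℝ) ^ s * F * v⁻¹ * (4 * (A * L ^ 3) * ((x : ℝ) / F ^ 2) + 1) =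
      C1 * (x : ℝ) ^ s * (4 * (A * L ^ 3) * ((x : ℝ) / (F * v)) + F / v) := by
    field_simp
  have e2 : (x : ℝ) / (F * v) ≤ 2 * w := by
    rw [div_le_iff₀ (by positivity)]
    calc (x : ℝ) ≤ 2 * (F * (w * v)) := ineq2
      _ = 2 * w * (F * v) := by ring
  have e3 : F / v ≤ 3 * w := by
    rw [div_le_iff₀ hv0]
    calc F ≤ 3 * (w * v) := ineq1
      _ = 3 * w * v := by ring
  have hAL : 1 ≤ A * L ^ 3 := one_le_mul_of_one_le_of_one_le hA hL3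
  have e4 : 4 * (A * L ^ 3) * ((x : ℝ) / (F * v)) + F / v ≤ 11 * (A * L ^ 3) * w := by
    have e5 : 4 * (A * L ^ 3) * ((x : ℝ) / (F * v)) ≤ 4 * (A * L ^ 3) * (2 * w) :=
      mul_le_mul_of_nonneg_left e2 (by positivity)
    have e6 : 3 * w ≤ 3 * (A * L ^ 3) * w := by
      have := le_mul_of_one_le_left hw0.le hAL
      linarith
    linarith
  rw [e1]
  calc C1 * (x : ℝ) ^ s * (4 * (A * L ^ 3) * ((x : ℝ) / (F * v)) + F / v) ≤
      C1 * (x : ℝ) ^ s * (11 * (A * L ^ 3) * w) :=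
        mul_le_mul_of_nonneg_left e4 (by positivity)
    _ = C1 * (11 * A) * L ^ 3 * (x : ℝ) ^ s * (Real.sqrt x / Δ) := by rw [hw]; ring

theorem winu (ε : ℝ) (hε : 0 < ε) : ∃ C : ℝ, 0 < C ∧ ∀ (x : ℕ) (Δ : ℝ), 1 ≤ x → 1 ≤ Δ →
    ((WU x Δ).card : ℝ) ≤ C * (x : ℝ) ^ ε * (Real.sqrt x / Δ) := by
  classical
  obtain ⟨C, hC, h⟩ := winu_block (ε / 2) (by positivity)
  obtain ⟨C5, hC5, hlog⟩ := Pool.Agent.TH43.LK.log_pow_le 5 (ε / 2) (by positivity)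
  obtain ⟨C6, hC6, hlight⟩ := leh_light
  obtain ⟨C7, hC7, hlog7⟩ := Pool.Agent.TH43.LK.log_pow_le 3 ε hε
  refine ⟨4 * C * C5 + 3 * C6 * C7, by positivity, ?_⟩
  intro x Δ hxn hΔ
  have hX1 : (1 : ℝ) ≤ (x : ℝ) := by exact_mod_cast hxn
  have hXp : (0 : ℝ) < (x : ℝ) := by linarith
  have hl0 : 0 ≤ Real.log (x : ℝ) := Real.log_nonneg hX1
  have hsx : 0 ≤ Real.sqrt (x : ℝ) := Real.sqrt_nonneg _
  have hΔ0 : 0 < Δ := by linarith
  rcases lt_or_ge Δ 3 with hΔ3 | hΔ3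
  · have h1 : ((WU x Δ).card : ℝ) ≤ ((((Icc 1 x).filter LehP).card : ℕ) : ℝ) := by
      apply Nat.cast_le.2
      apply card_le_card
      intro n hn
      unfold WU at hn
      rw [mem_filter] at hn ⊢
      exact ⟨hn.1, hn.2.1⟩
    have h2 : Real.sqrt x ≤ 3 * (Real.sqrt x / Δ) := by
      rw [mul_div_assoc', le_div_iff₀ hΔ0]
      nlinarith
    calc ((WU x Δ).card : ℝ) ≤ C6 * (1 + Real.log x) ^ 3 * Real.sqrt x := h1.trans (hlight x hxn)
      _ ≤ C6 * (C7 * (x : ℝ) ^ ε) * (3 * (Real.sqrt x / Δ)) := by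
          apply mul_le_mul _ h2 hsx (by positivity)
          exact mul_le_mul_of_nonneg_left (hlog7 x hX1) hC6.le
      _ = 3 * C6 * C7 * (x : ℝ) ^ ε * (Real.sqrt x / Δ) := by ring
      _ ≤ (4 * C * C5 + 3 * C6 * C7) * (x : ℝ) ^ ε * (Real.sqrt x / Δ) := by
          apply mul_le_mul_of_nonneg_right _ (by positivity)
          apply mul_le_mul_of_nonneg_right _ (by positivity)
          have : 0 ≤ 4 * C * C5 := by positivity
          linarith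
  set N := Nat.log 2 x + 1 with hN
  have hsub : WU x Δ ⊆ (range N ×ˢ range N).biUnion (fun ij => WSU x Δ ij.1 ij.2) := by
    intro n hn
    unfold WU at hn
    rw [mem_filter, mem_Icc] at hn
    obtain ⟨⟨hn1, hnx⟩, hL, q, hq, hqn, h1, h2⟩ := hn
    have hqx : q ≤ x := (Nat.le_of_dvd hn1 hqn).trans hnx
    have hsn : seg n q ∣ n := seg_dvd n q
    have hs0 : 1 ≤ seg n q := Nat.pos_of_dvd_of_pos hsn hn1
    have hsx : seg n q ≤ x := (Nat.le_of_dvd hn1 hsn).trans hnx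
    rw [mem_biUnion]
    refine ⟨(Nat.log 2 q, Nat.log 2 (seg n q)), ?_, ?_⟩
    · rw [mem_product, mem_range, mem_range]
      have a1 := Nat.log_mono_right (b := 2) hqx
      have a2 := Nat.log_mono_right (b := 2) hsx
      constructor
      · show Nat.log 2 q < N
        omega
      · show Nat.log 2 (seg n q) < N
        omega
    · unfold WSU
      rw [mem_filter, mem_Icc]
      exact ⟨⟨hn1, hnx⟩, hL, q, hq, hqn, h1, h2, Nat.pow_log_le_self 2 hq.ne_zero,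
        Nat.lt_pow_succ_log_self (by norm_num) q, Nat.pow_log_le_self 2 (by omega),
        Nat.lt_pow_succ_log_self (by norm_num) _⟩
  have h1 : ((WU x Δ).card : ℝ) ≤
      ∑ ij ∈ range N ×ˢ range N, ((WSU x Δ ij.1 ij.2).card : ℝ) := by
    exact_mod_cast (card_le_card hsub).trans card_biUnion_le
  refine h1.trans ((sum_le_sum fun ij _ => h x ij.1 ij.2 Δ hxn hΔ3).trans ?_)
  rw [sum_const, nsmul_eq_mul, card_product, card_range]
  have h7 : (N : ℝ) ≤ 2 * (1 + Real.log x) := by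
    have h2 : (2 : ℝ) ^ (Nat.log 2 x) ≤ x := by exact_mod_cast Nat.pow_log_le_self 2 (by omega)
    have h3 := Real.log_le_log (by positivity) h2
    rw [Real.log_pow] at h3
    have h4 := Real.log_two_gt_d9
    have h5 : (0 : ℝ) ≤ (Nat.log 2 x : ℝ) := Nat.cast_nonneg _
    have h10 : (Nat.log 2 x : ℝ) * (1 / 2) ≤ (Nat.log 2 x : ℝ) * Real.log 2 :=
      mul_le_mul_of_nonneg_left (by linarith) h5
    rw [hN]
    push_cast
    linarith
  have h8 := hlog x hX1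
  have h9 : ((N * N : ℕ) : ℝ) ≤ (2 * (1 + Real.log x)) ^ 2 := by
    push_cast
    rw [pow_two]
    exact mul_le_mul h7 h7 (Nat.cast_nonneg _) (by linarith)
  calc ((N * N : ℕ) : ℝ) * (C * (1 + Real.log x) ^ 3 * (x : ℝ) ^ (ε / 2) * (Real.sqrt x / Δ)) ≤
      (2 * (1 + Real.log x)) ^ 2 *
        (C * (1 + Real.log x) ^ 3 * (x : ℝ) ^ (ε / 2) * (Real.sqrt x / Δ)) :=
        mul_le_mul_of_nonneg_right h9 (by positivity)
    _ = 4 * C * ((1 + Real.log x) ^ 5 * (x : ℝ) ^ (ε / 2)) * (Real.sqrt x / Δ) := by ring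
    _ ≤ 4 * C * ((C5 * (x : ℝ) ^ (ε / 2)) * (x : ℝ) ^ (ε / 2)) * (Real.sqrt x / Δ) := by
        apply mul_le_mul_of_nonneg_right _ (by positivity)
        apply mul_le_mul_of_nonneg_left _ (by positivity)
        exact mul_le_mul_of_nonneg_right h8 (by positivity)
    _ = 4 * C * C5 * ((x : ℝ) ^ (ε / 2) * (x : ℝ) ^ (ε / 2)) * (Real.sqrt x / Δ) := by ring
    _ = 4 * C * C5 * (x : ℝ) ^ ε * (Real.sqrt x / Δ) := by
        rw [rq hXp (show ε / 2 + ε / 2 = ε by ring)]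
    _ ≤ (4 * C * C5 + 3 * C6 * C7) * (x : ℝ) ^ ε * (Real.sqrt x / Δ) := by
        apply mul_le_mul_of_nonneg_right _ (by positivity)
        apply mul_le_mul_of_nonneg_right _ (by positivity)
        have : 0 ≤ 3 * C6 * C7 := by positivity
        linarith

end Pool.Agent.TH43.PL
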